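import Pool.Agent.N686.DI.Nons
set_option autoImplicit false

/-!
A lower bound for the quadratic form of the logarithms of the branches of a polynomial, with a
perturbation given by the Taylor coefficients.
-/

namespace Pool.Agent.Run7.h406.Fb

open MeasureTheory Set Filter Topology Metric Polynomial

open Pool.Agent.TH826.MK (circ)

open Pool.Agent.Y775.CC

open Pool.Agent.N686.DI (fc qf qf_ineq)

set_option maxHeartbeats 400000

section

variable {G : ℂ[X]} {n : ℕ} {V : Set ℂ} {φ : Fin n → ℂ → ℂ}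

/-- The perturbed quadratic form. -/
theorem form_ge (H : Branches G V φ) {R : ℝ} (hR : 0 < R) (hV : ∀ z : ℂ, ‖z‖ ≤ R → z ∈ V)
    {aa : Fin n → Fin n → ℂ → ℂ} (haad : ∀ i j, DifferentiableOn ℂ (aa i j) V)
    (haa : ∀ i j, ∀ u ∈ V, Complex.exp (aa i j u) = psi φ i j 0 u) (c : Fin n → ℝ)
    (hc : ∑ i, c i = 0) {β : ℕ → ℂ} {A : ℝ}
    (hβ : ∀ M : ℕ, ∑ m ∈ Finset.Icc 1 M, (m : ℝ) * ‖β m‖ ^ 2 ≤ A) {S : Fin n → Fin n → ℂ}
    (hS : ∀ i j, HasSum (fun m : ℕ => (m : ℂ) * β m * fc R (aa i j) m) (S i j)) :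
    -(A / 2 * ∑ i, c i ^ 2) ≤ ∑ i, ∑ j, c i * c j * (qf φ R i j + (S i j).re) := by
  -- the partial sums
  set Hm : Fin n → ℕ → ℂ := fun i m => ∑ j, (c j : ℂ) * fc R (aa i j) m with hHm
  set P : ℕ → ℝ := fun M => ∑ i, c i * (∑ m ∈ Finset.Icc 1 M, (m : ℂ) * β m * Hm i m).re with hP
  have h1 : ∀ M, -(A / 2 * ∑ i, c i ^ 2) - ∑ k, ∑ i, c k * c i * qf φ R k i ≤ P M := by
    intro M
    have h2 := qf_ineq H hR hV haad haa c hc M
    have h3 : 0 ≤ ∑ i, ∑ m ∈ Finset.Icc 1 M, ((m : ℝ) / 2 * ‖Hm i m‖ ^ 2 +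
        c i * ((m : ℂ) * β m * Hm i m).re + (m : ℝ) / 2 * ‖β m‖ ^ 2 * c i ^ 2) := by
      refine Finset.sum_nonneg fun i _ => Finset.sum_nonneg fun m _ => ?_
      have e1 : |((m : ℂ) * β m * Hm i m).re| ≤ m * ‖β m‖ * ‖Hm i m‖ := by
        refine (Complex.abs_re_le_norm _).trans (le_of_eq ?_)
        rw [norm_mul, norm_mul, Complex.norm_natCast]
      have e2 : -(|c i| * (m * ‖β m‖ * ‖Hm i m‖)) ≤ c i * ((m : ℂ) * β m * Hm i m).re := by
        have e3 : |c i * ((m : ℂ) * β m * Hm i m).re| ≤ |c i| * (m * ‖β m‖ * ‖Hm i m‖) := by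
          rw [abs_mul]
          exact mul_le_mul_of_nonneg_left e1 (abs_nonneg _)
        exact (neg_le_neg e3).trans (neg_abs_le _)
      have e4 : 0 ≤ (m : ℝ) / 2 * (‖Hm i m‖ - ‖β m‖ * |c i|) ^ 2 := by positivity
      have e5 : c i ^ 2 = |c i| ^ 2 := (sq_abs _).symm
      rw [e5]
      nlinarith
    have h4 : ∑ i, ∑ m ∈ Finset.Icc 1 M, ((m : ℝ) / 2 * ‖Hm i m‖ ^ 2 +
        c i * ((m : ℂ) * β m * Hm i m).re + (m : ℝ) / 2 * ‖β m‖ ^ 2 * c i ^ 2) =
        (∑ i, ∑ m ∈ Finset.Icc 1 M, (m : ℝ) / 2 * ‖Hm i m‖ ^ 2) + P M +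
        (∑ m ∈ Finset.Icc 1 M, (m : ℝ) * ‖β m‖ ^ 2) / 2 * ∑ i, c i ^ 2 := by
      simp only [hP, Finset.sum_add_distrib, Complex.re_sum, Finset.mul_sum]
      congr 1
      refine Finset.sum_congr rfl fun i _ => ?_
      rw [Finset.sum_div, Finset.sum_mul]
      exact Finset.sum_congr rfl fun m _ => by ring
    rw [h4] at h3
    have h5 : (∑ m ∈ Finset.Icc 1 M, (m : ℝ) * ‖β m‖ ^ 2) / 2 * ∑ i, c i ^ 2 ≤
        A / 2 * ∑ i, c i ^ 2 := by
      refine mul_le_mul_of_nonneg_right ?_ (Finset.sum_nonneg fun i _ => sq_nonneg _)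
      linarith [hβ M]
    linarith
  -- the limit
  have h2 : Tendsto P atTop (𝓝 (∑ i, c i * (∑ j, (c j : ℂ) * S i j).re)) := by
    simp only [hP]
    refine tendsto_finsetSum _ fun i _ => ?_
    refine Tendsto.const_mul _ ?_
    refine (Complex.continuous_re.tendsto _).comp ?_
    have h3 : HasSum (fun m : ℕ => (m : ℂ) * β m * Hm i m) (∑ j, (c j : ℂ) * S i j) := by
      have h4 := hasSum_sum (s := Finset.univ) (f := fun (j : Fin n) (m : ℕ) =>
        (c j : ℂ) * ((m : ℂ) * β m * fc R (aa i j) m)) fun j _ => (hS i j).mul_left (c j : ℂ)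
      refine (funext fun m => ?_ : (fun m : ℕ => (m : ℂ) * β m * Hm i m) = _) ▸ h4
      simp only [hHm]
      rw [Finset.mul_sum]
      exact Finset.sum_congr rfl fun j _ => by ring
    have h5 := h3.tendsto_sum_nat.comp (tendsto_add_atTop_nat 1)
    refine h5.congr fun M => ?_
    show ∑ m ∈ Finset.range (M + 1), (m : ℂ) * β m * Hm i m = _
    rw [Finset.sum_range_succ', Nat.cast_zero, zero_mul, zero_mul, add_zero]
    rw [Finset.range_eq_Ico, Finset.sum_Ico_add' (fun m : ℕ => (m : ℂ) * β m * Hm i m) 0 M 1]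
    rfl
  have h3 := ge_of_tendsto' h2 h1
  have h4 : ∑ i, ∑ j, c i * c j * (qf φ R i j + (S i j).re) =
      (∑ k, ∑ i, c k * c i * qf φ R k i) + ∑ i, c i * (∑ j, (c j : ℂ) * S i j).re := by
    simp only [mul_add, Finset.sum_add_distrib, Complex.re_sum, Complex.re_ofReal_mul,
      Finset.mul_sum]
    congr 1
    exact Finset.sum_congr rfl fun i _ => Finset.sum_congr rfl fun j _ => by ring
  rw [h4]
  linarith

end

end Pool.Agent.Run7.h406.Fb
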