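import Mathlib
set_option autoImplicit false

/-!
Nonsingular matrices of differences.
-/

namespace Pool.Agent.Run7.h406.Fb

/-- Let all column sums of `N` be equal, and let the quadratic form of `N` be anisotropic on the
vectors with sum zero. Then the matrix of the differences `N i k - N i b`, `i, k ≠ b`, is
nonsingular. -/
theorem det_ne_zero_of_form {p : ℕ} {ι : Type*} [Fintype ι] [DecidableEq ι]
    (N : Fin p → Fin p → ℝ) {s0 : ℝ} (hcol : ∀ k, ∑ i, N i k = s0)
    (hpos : ∀ c : Fin p → ℝ, ∑ i, c i = 0 → c ≠ 0 → ∑ i, ∑ k, c i * c k * N i k ≠ 0)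
    (e : ι → Fin p) (he : Function.Injective e) (b : Fin p) (hb : ∀ i, e i ≠ b)
    (hs : ∀ k, k = b ∨ ∃ i, e i = k) :
    (Matrix.of fun t i : ι => N (e t) (e i) - N (e t) b).det ≠ 0 := by
  classical
  intro h0
  obtain ⟨v, hv, hz⟩ := Matrix.exists_vecMul_eq_zero_iff.2 h0
  have hz' : ∀ i, ∑ t, v t * (N (e t) (e i) - N (e t) b) = 0 := fun i => congrFun hz i
  set w : Fin p → ℝ := fun k => ∑ t, if e t = k then v t else 0 with hw
  have hwe : ∀ t, w (e t) = v t := by
    intro t
    simp only [hw]
    rw [Finset.sum_eq_single t]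
    · rw [if_pos rfl]
    · intro i _ hi
      rw [if_neg fun h => hi (he h)]
    · intro h
      exact absurd (Finset.mem_univ t) h
  have hwb : w b = 0 := by
    simp only [hw]
    exact Finset.sum_eq_zero fun t _ => if_neg (hb t)
  have hsum : ∀ f : Fin p → ℝ, ∑ k, w k * f k = ∑ t, v t * f (e t) := by
    intro f
    simp only [hw, Finset.sum_mul]
    rw [Finset.sum_comm]
    refine Finset.sum_congr rfl fun t _ => ?_
    rw [Finset.sum_eq_single (e t)]
    · rw [if_pos rfl]
    · intro k _ hk
      rw [if_neg (Ne.symm hk), zero_mul]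
    · intro h
      exact absurd (Finset.mem_univ _) h
  set T : ℝ := ∑ k, w k * N k b with hT
  have hconst : ∀ k, ∑ i, w i * N i k = T := by
    intro k
    rcases hs k with h | ⟨i, rfl⟩
    · rw [h]
    · have h1 := hz' i
      rw [hT, hsum fun k => N k (e i), hsum fun k => N k b, ← sub_eq_zero,
        ← Finset.sum_sub_distrib, ← h1]
      exact Finset.sum_congr rfl fun t _ => by ring
  have hp : (p : ℝ) ≠ 0 := by
    have : 0 < p := b.pos
    exact_mod_cast this.ne'
  set m : ℝ := (∑ k, w k) / p with hm
  set c : Fin p → ℝ := fun k => w k - m with hc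
  have hc0 : ∑ k, c k = 0 := by
    simp only [hc, Finset.sum_sub_distrib, Finset.sum_const, Finset.card_univ, Fintype.card_fin,
      nsmul_eq_mul, hm]
    field_simp
    ring
  have hcN : ∀ k, ∑ i, c i * N i k = T - m * s0 := by
    intro k
    simp only [hc, sub_mul, Finset.sum_sub_distrib]
    rw [hconst k, ← Finset.mul_sum, hcol k]
  have hq : ∑ i, ∑ k, c i * c k * N i k = 0 := by
    rw [Finset.sum_comm]
    have h1 : ∀ k, ∑ i, c i * c k * N i k = c k * (T - m * s0) := by
      intro k
      rw [← hcN k, Finset.mul_sum]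
      exact Finset.sum_congr rfl fun i _ => by ring
    simp only [h1]
    rw [← Finset.sum_mul, hc0, zero_mul]
  have hcz : c = 0 := by
    by_contra h
    exact hpos c hc0 h hq
  have hm0 : m = 0 := by
    have h1 := congrFun hcz b
    simp only [hc, hwb, Pi.zero_apply] at h1
    linarith
  apply hv
  funext t
  have h1 := congrFun hcz (e t)
  simp only [hc, hwe, hm0, Pi.zero_apply] at h1
  simpa using h1

end Pool.Agent.Run7.h406.Fb
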