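import Pool.Agent.Y775.CC.Pair
import Pool.Agent.TH826.UH.Pair
set_option autoImplicit false

/-!
The regulator integral when all but two entries are circles of radius one.
-/

namespace Pool.Agent.Run7.h406.Fb

open MeasureTheory Set

open Pool.Agent.TH826.MK

open Pool.Agent.TH826.UH (pr NZ)

open Pool.Agent.Y775.CC (grow_circ_zero grow_circ_self grow_circ_ne)

section

variable {q : ℕ}

/-- the position of the second entry -/
def i1 (q : ℕ) : Fin (1 + q) := Fin.castAdd q 0

theorem i1_val (q : ℕ) : (i1 q : ℕ) = 0 := rfl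

/-- the positions -/
def ebl (q : ℕ) : Fin 2 ⊕ Fin q ≃ Fin (1 + q + 1) :=
  finSumFinEquiv.trans (finCongr (by omega))

theorem ebl_zero : ebl q (Sum.inl 0) = 0 := rfl

theorem ebl_one : ebl q (Sum.inl 1) = (i1 q).succ := rfl

theorem ebl_inr (j : Fin q) : ebl q (Sum.inr j) = (Fin.natAdd 1 j).succ := by
  apply Fin.ext
  unfold ebl
  simp
  omega

/-- the entries -/
noncomputable def ent (z : (Fin (1 + q) → ℝ) → ℂ) (f : ℝ → ℂ) :
    Fin (1 + q + 1) → (Fin (1 + q) → ℝ) → ℂ :=
  Fin.cons z (Fin.append (fun (_ : Fin 1) θ => f (θ (i1 q)))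
    fun (j : Fin q) θ => circ 1 (θ (Fin.natAdd 1 j)))

theorem ent_zero (z : (Fin (1 + q) → ℝ) → ℂ) (f : ℝ → ℂ) : ent z f 0 = z := rfl

theorem ent_one (z : (Fin (1 + q) → ℝ) → ℂ) (f : ℝ → ℂ) :
    ent z f (i1 q).succ = fun θ => f (θ (i1 q)) := by
  unfold ent i1
  rw [Fin.cons_succ, Fin.append_left]

theorem ent_inr (z : (Fin (1 + q) → ℝ) → ℂ) (f : ℝ → ℂ) (j : Fin q) :
    ent z f (Fin.natAdd 1 j).succ = fun θ => circ 1 (θ (Fin.natAdd 1 j)) := by
  unfold ent
  rw [Fin.cons_succ, Fin.append_right]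

theorem i1_ne (j : Fin q) : i1 q ≠ Fin.natAdd 1 j := by
  intro h
  have := congrArg Fin.val h
  simp [i1] at this
  omega

theorem integrand_ent (z : (Fin (1 + q) → ℝ) → ℂ) {f : ℝ → ℂ} (hf : ContDiff ℝ 2 f)
    (y : Fin (1 + q + 1) → ℝ) :
    integrand (ent z f) y = (2 * Real.pi) ^ q *
      (Real.log ‖z (tl _ y)‖ * (deriv f (y (i1 q).succ) / f (y (i1 q).succ)).im -
        Real.log ‖f (y (i1 q).succ)‖ * (lw z (i1 q) (tl _ y)).im) := by
  set M : Matrix (Fin (1 + q + 1)) (Fin (1 + q + 1)) ℂ :=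
    Matrix.of fun l => grow (ent z f l) y with hM
  have hblock : M.submatrix (ebl q) (ebl q) = Matrix.fromBlocks
      (Matrix.of fun a b : Fin 2 => M (ebl q (Sum.inl a)) (ebl q (Sum.inl b)))
      (Matrix.of fun (a : Fin 2) (b : Fin q) => M (ebl q (Sum.inl a)) (ebl q (Sum.inr b)))
      0 ((2 * Real.pi * Complex.I : ℂ) • (1 : Matrix (Fin q) (Fin q) ℂ)) := by
    ext a b
    rcases a with a | a <;> rcases b with b | b
    · rfl
    · rfl
    · rw [Matrix.submatrix_apply, Matrix.fromBlocks_apply₂₁, Matrix.zero_apply, ebl_inr, hM,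
        Matrix.of_apply, ent_inr]
      refine Fin.cases ?_ (fun b => ?_) b
      · rw [ebl_zero, grow_circ_zero one_pos, Real.log_one, Complex.ofReal_zero]
      · rw [Subsingleton.elim b 0]
        have : (Fin.succ 0 : Fin 2) = 1 := rfl
        rw [this, ebl_one, grow_circ_ne (i1_ne a)]
    · rw [Matrix.submatrix_apply, Matrix.fromBlocks_apply₂₂, ebl_inr, ebl_inr, hM,
        Matrix.of_apply, ent_inr, Matrix.smul_apply, Matrix.one_apply, smul_eq_mul]
      by_cases h : a = b
      · rw [h, if_pos rfl, mul_one, grow_circ_self one_pos]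
      · rw [if_neg h, mul_zero, grow_circ_ne]
        intro h1
        exact h ((Fin.natAdd_injective _ _ h1).symm)
  have hdet : M.det = (grow z y 0 * grow (fun θ => f (θ (i1 q))) y (i1 q).succ -
      grow z y (i1 q).succ * grow (fun θ => f (θ (i1 q))) y 0) * (2 * Real.pi * Complex.I) ^ q := by
    rw [← Matrix.det_submatrix_equiv_self (ebl q) M, hblock, Matrix.det_fromBlocks_zero₂₁,
      Matrix.det_smul, Matrix.det_one, mul_one, Matrix.det_fin_two, Fintype.card_fin]
    simp only [Matrix.of_apply, hM]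
    have e0 : ebl q (Sum.inl 0) = 0 := rfl
    have e1 : ebl q (Sum.inl 1) = (i1 q).succ := rfl
    rw [e0, e1, ent_zero, ent_one]
  unfold integrand
  rw [hdet, grow_succ, grow_succ, grow_zero, grow_zero, lw_vf_self hf]
  have h4 : (-Complex.I) ^ (1 + q) * (2 * Real.pi * Complex.I) ^ q =
      -Complex.I * ((2 * Real.pi : ℝ) : ℂ) ^ q := by
    rw [pow_add, pow_one, mul_assoc, ← mul_pow]
    congr 2
    push_cast
    linear_combination (-(2 * (Real.pi : ℂ))) * Complex.I_mul_I
  set A : ℝ := Real.log ‖z (tl _ y)‖ with hA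
  set B : ℝ := Real.log ‖f (tl (1 + q) y (i1 q))‖ with hB
  set Z := lw z (i1 q) (tl _ y) with hZ
  set F := deriv f (tl (1 + q) y (i1 q)) / f (tl (1 + q) y (i1 q)) with hF
  have h5 : (-Complex.I) ^ (1 + q) * (((A : ℂ) * (((y 0 * F.re : ℝ) : ℂ) + Complex.I * (F.im : ℝ)) -
      (((y 0 * Z.re : ℝ) : ℂ) + Complex.I * (Z.im : ℝ)) * (B : ℂ)) *
      (2 * Real.pi * Complex.I) ^ q) = (((2 * Real.pi) ^ q : ℝ) : ℂ) * (-Complex.I *
      ((A : ℂ) * (((y 0 * F.re : ℝ) : ℂ) + Complex.I * (F.im : ℝ)) -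
      (((y 0 * Z.re : ℝ) : ℂ) + Complex.I * (Z.im : ℝ)) * (B : ℂ))) := by
    push_cast at h4 ⊢
    linear_combination ((A : ℂ) * (((y 0 : ℂ) * F.re) + Complex.I * (F.im : ℝ)) -
      (((y 0 : ℂ) * Z.re) + Complex.I * (Z.im : ℝ)) * (B : ℂ)) * h4
  have h6 : ((-Complex.I) ^ (1 + q) * (((A : ℂ) * (((y 0 * F.re : ℝ) : ℂ) + Complex.I * (F.im : ℝ)) -
      (((y 0 * Z.re : ℝ) : ℂ) + Complex.I * (Z.im : ℝ)) * (B : ℂ)) *
      (2 * Real.pi * Complex.I) ^ q)).re = (2 * Real.pi) ^ q * (A * F.im - B * Z.im) := by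
    rw [h5, Complex.re_ofReal_mul]
    congr 1
    simp [Complex.mul_re, Complex.mul_im, Complex.add_re, Complex.add_im, Complex.sub_im,
      Complex.sub_re]
    ring
  exact h6

/-- the integral over one of the variables first -/
theorem integral_box {n : ℕ} (p : Fin (n + 1)) {F : (Fin (n + 1) → ℝ) → ℝ} (hF : Continuous F) :
    ∫ y in Icc (0 : Fin (n + 1) → ℝ) 1, F y =
      ∫ x in Icc (0 : Fin n → ℝ) 1, ∫ s in (0 : ℝ)..1, F (p.insertNth s x) := by
  have hc : Continuous fun u : ℝ × (Fin n → ℝ) => (p.insertNth u.1 u.2 : Fin (n + 1) → ℝ) := by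
    refine continuous_pi fun j => ?_
    rcases Fin.eq_self_or_eq_succAbove p j with h | ⟨k, h⟩
    · subst h
      simpa using continuous_fst
    · subst h
      simp only [Fin.insertNth_apply_succAbove]
      exact (continuous_apply k).comp continuous_snd
  rw [restrict_Icc]
  have h := measurePreserving_piFinSuccAbove
    (fun _ : Fin (n + 1) => (volume : Measure ℝ).restrict (Icc 0 1)) p
  have h2 := h.integral_comp' (fun u : ℝ × (Fin n → ℝ) => F (p.insertNth u.1 u.2))
  have e : ∀ y : Fin (n + 1) → ℝ, (fun u : ℝ × (Fin n → ℝ) => F (p.insertNth u.1 u.2))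
      (MeasurableEquiv.piFinSuccAbove (fun _ => ℝ) p y) = F y := by
    intro y
    show F (p.insertNth (y p) (p.removeNth y)) = F y
    rw [Fin.insertNth_self_removeNth]
  simp only [e] at h2
  rw [h2, integral_prod_symm]
  · rw [← restrict_Icc]
    refine integral_congr_ae (Filter.Eventually.of_forall fun x => ?_)
    show ∫ s in Icc (0 : ℝ) 1, F (p.insertNth s x) = _
    rw [integral_Icc_eq_integral_Ioc, ← intervalIntegral.integral_of_le zero_le_one]
  · rw [← restrict_Icc, Measure.prod_restrict]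
    exact (hF.comp hc).continuousOn.integrableOn_compact (isCompact_Icc.prod isCompact_Icc)

/-- the point with first coordinate `s` -/
def th (x : Fin (1 + q) → ℝ) (s : ℝ) : Fin (1 + q) → ℝ := fun l =>
  ((i1 q).succ.insertNth s x : Fin (1 + q + 1) → ℝ) l.succ

theorem th_i1 (x : Fin (1 + q) → ℝ) (s : ℝ) : th x s (i1 q) = s := by
  unfold th
  rw [Fin.insertNth_apply_same]

theorem th_eq (x : Fin (1 + q) → ℝ) (s : ℝ) : th x s = th x 0 + s • Pi.single (i1 q) 1 := by
  funext l
  rw [Pi.add_apply, Pi.smul_apply, smul_eq_mul]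
  by_cases h : l = i1 q
  · subst h
    rw [th_i1, th_i1, Pi.single_eq_same, zero_add, mul_one]
  · rw [Pi.single_eq_of_ne h, mul_zero, add_zero]
    unfold th
    obtain ⟨k, hk⟩ := Fin.exists_succAbove_eq (x := l.succ) (y := (i1 q).succ)
      (fun h1 => h (Fin.succ_injective _ h1))
    rw [← hk, Fin.insertNth_apply_succAbove, Fin.insertNth_apply_succAbove]

theorem hasDerivAt_th (x : Fin (1 + q) → ℝ) (s : ℝ) :
    HasDerivAt (th x) (Pi.single (i1 q) 1) s := by
  have h1 : HasDerivAt (fun s : ℝ => th x 0 + s • (Pi.single (i1 q) 1 : Fin (1 + q) → ℝ))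
      (Pi.single (i1 q) 1) s := by
    have h2 := ((hasDerivAt_id s).smul_const (Pi.single (i1 q) 1 : Fin (1 + q) → ℝ)).const_add
      (th x 0)
    simpa using h2
  have e : th x = fun s : ℝ => th x 0 + s • (Pi.single (i1 q) 1 : Fin (1 + q) → ℝ) :=
    funext fun s => th_eq x s
  rw [e]
  exact h1

theorem contDiff_th (x : Fin (1 + q) → ℝ) {n : WithTop ℕ∞} : ContDiff ℝ n (th x) := by
  have e : th x = fun s : ℝ => th x 0 + s • (Pi.single (i1 q) 1 : Fin (1 + q) → ℝ) :=
    funext fun s => th_eq x s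
  rw [e]
  fun_prop

theorem lw_th {z : (Fin (1 + q) → ℝ) → ℂ} (hz : Good z) (x : Fin (1 + q) → ℝ) (s : ℝ) :
    lw z (i1 q) (th x s) = deriv (fun s => z (th x s)) s / z (th x s) := by
  unfold lw
  congr 1
  have hf : HasFDerivAt z (fderiv ℝ z (th x s)) (th x s) :=
    ((hz.smooth.differentiable (by norm_num)) _).hasFDerivAt
  exact (hf.comp_hasDerivAt s (hasDerivAt_th x s)).deriv.symm

theorem nz_th {z : (Fin (1 + q) → ℝ) → ℂ} (hz : Good z) (x : Fin (1 + q) → ℝ) :
    NZ fun s => z (th x s) :=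
  ⟨hz.smooth.comp (contDiff_th x), fun _ => hz.ne_zero _⟩

theorem good_ent {z : (Fin (1 + q) → ℝ) → ℂ} (hz : Good z) {f : ℝ → ℂ} (hf : NZ f) (l) :
    Good (ent z f l) := by
  refine Fin.cases ?_ (fun l => ?_) l
  · exact hz
  · refine Fin.addCases (fun k => ?_) (fun j => ?_) l
    · unfold ent
      rw [Fin.cons_succ, Fin.append_left]
      exact ⟨hf.smooth.comp (contDiff_apply ℝ ℝ _), fun θ => hf.ne_zero _⟩
    · rw [ent_inr]
      exact ⟨(contDiff_circ 1).comp (contDiff_apply ℝ ℝ _), fun θ => by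
        rw [← norm_ne_zero_iff, norm_circ zero_le_one]
        exact one_ne_zero⟩

/-- **The reduction to the regulators of loops.** -/
theorem pairing_ent {z : (Fin (1 + q) → ℝ) → ℂ} (hz : Good z) {f : ℝ → ℂ} (hf : NZ f) :
    pairing (ent z f) = (2 * Real.pi) ^ q *
      ∫ x in Icc (0 : Fin (1 + q) → ℝ) 1, pr (fun s => z (th x s)) f := by
  unfold pairing
  rw [integral_box (i1 q).succ (continuous_integrand (good_ent hz hf)), ← integral_const_mul]
  refine integral_congr_ae (Filter.Eventually.of_forall fun x => ?_)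
  simp only
  unfold pr
  rw [← intervalIntegral.integral_const_mul]
  refine intervalIntegral.integral_congr fun s _ => ?_
  simp only
  rw [integrand_ent z hf.smooth, Fin.insertNth_apply_same]
  have e : tl (1 + q) ((i1 q).succ.insertNth s x : Fin (1 + q + 1) → ℝ) = th x s := rfl
  rw [e, lw_th hz]

end

end Pool.Agent.Run7.h406.Fb
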