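import Pool.Agent.Run7.h406.Fb.Form
import Pool.Agent.Run7.h406.Fb.Pair
set_option autoImplicit false

/-!
The quadratic form of the regulators of `{z, φ_k(u) - φ_i(0)}` on the loops `|u| = R`, for a function
`z` with `z v = exp (b v)`, `v = κ/u`.
-/

namespace Pool.Agent.Run7.h406.Fb

open MeasureTheory Set Filter Topology Metric Polynomial

open Pool.Agent.TH826.MK (circ norm_circ contDiff_circ)

open Pool.Agent.TH826.UH (pr NZ pr_mul pr_div)

open Pool.Agent.Y775.CC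

open Pool.Agent.N686.DI (fc qf qf_ineq vv norm_vv nz_vv contDiff_vv pr_symm pr_reg hasSum_mixed
  exists_logs re_aa sub_eq_exp contDiff_gc NZ.cexp nz_X)

set_option maxHeartbeats 400000

section

variable {G : ℂ[X]} {n : ℕ} {V V' : Set ℂ} {φ : Fin n → ℂ → ℂ} (H : Branches G V φ) {R R' : ℝ}
  (hR : 0 < R) (hR' : 0 < R') (hV : ∀ z : ℂ, ‖z‖ ≤ R → z ∈ V) (hV' : ∀ z : ℂ, ‖z‖ ≤ R' → z ∈ V')
  (hVo' : IsOpen V') {b : ℂ → ℂ} (hb : DifferentiableOn ℂ b V') (hb0 : b 0 = 0) {κ : ℂ}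
  (hκ0 : κ ≠ 0) (hκ : ‖κ‖ < R') {Z : ℝ → ℂ} (hZ : NZ Z)
  (hZb : ∀ s, Z s * vv κ s = Complex.exp (b (vv κ s)))
  {aa : Fin n → Fin n → ℂ → ℂ} (haad : ∀ i j, DifferentiableOn ℂ (aa i j) V)
  (haa : ∀ i j, ∀ u ∈ V, Complex.exp (aa i j u) = psi φ i j 0 u)

include H hR hR' hV hV' hVo' hb hb0 hκ0 hκ hZ hZb haad haa

theorem pr_eq (k i : Fin n) : ∃ S : ℂ,
    HasSum (fun m : ℕ => (m : ℂ) * (fc R' b m * (κ / R') ^ m) * fc R (aa k i) m) S ∧
    pr Z (fun s => φ k (circ R s) - φ i 0) =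
      2 * Real.pi * (-(if k = i then Real.log ‖κ‖ else 0) + (qf φ R k i + S.re)) := by
  have hpi : (2 * Real.pi * Complex.I : ℂ) ≠ 0 := by
    simp [Real.pi_ne_zero]
  have hm := hasSum_mixed hR hR' hV hV' H.isOpen hVo' (haad k i) hb hκ
  set I0 := ∫ t in (0 : ℝ)..1, deriv (fun t => aa k i (circ R t)) t * b (vv κ t) with hI0
  have hS : HasSum (fun m : ℕ => (m : ℂ) * (fc R' b m * (κ / R') ^ m) * fc R (aa k i) m)
      (I0 / (2 * Real.pi * Complex.I)) := by
    have h1 := hm.div_const (2 * Real.pi * Complex.I)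
    refine (funext fun m => ?_ : (fun m : ℕ => (m : ℂ) * (fc R' b m * (κ / R') ^ m) *
      fc R (aa k i) m) = _) ▸ h1
    rw [eq_div_iff hpi]
    ring
  refine ⟨_, hS, ?_⟩
  -- the inverse of `Z`
  have h1 : pr Z (fun s => φ k (circ R s) - φ i 0) =
      pr (fun s => φ k (circ R s) - φ i 0)
        (fun s => vv κ s * Complex.exp ((fun v => -b v) (vv κ s))) := by
    have e1 : (fun s => vv κ s * Complex.exp ((fun v => -b v) (vv κ s))) = fun s => 1 / Z s := by
      funext s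
      simp only
      rw [Complex.exp_neg, ← hZb s]
      have h2 := hZ.ne_zero s
      have h3 := (nz_vv hκ0).ne_zero s
      field_simp
    have n1 : NZ fun _ : ℝ => (1 : ℂ) := ⟨contDiff_const, fun _ => one_ne_zero⟩
    rw [e1, pr_div (nz_X H hR hV k i) n1 hZ, Pool.Agent.TH826.UH.pr_one, zero_sub, ← pr_symm]
  have h2 : (fun s => φ k (circ R s) - φ i 0) = fun s =>
      (if k = i then circ R s else 1) * Complex.exp (aa k i (circ R s)) := by
    funext s
    exact sub_eq_exp haa k i (hV _ (norm_circ hR.le s).le)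
  have hreg := pr_reg hR hR' hV hV' H.isOpen hVo' (haad k i) (b := fun v => -b v) hb.neg hκ hκ0
    (k = i) True
  simp only [if_true] at hreg
  rw [h1, h2, hreg]
  have h3 : (∫ t in (0 : ℝ)..1, deriv (fun t => aa k i (circ R t)) t * -b (vv κ t)) = -I0 := by
    rw [hI0, ← intervalIntegral.integral_neg]
    exact intervalIntegral.integral_congr fun t _ => mul_neg _ _
  have h4 : I0.im = 2 * Real.pi * (I0 / (2 * Real.pi * Complex.I)).re := by
    have h5 : I0 = ((2 * Real.pi : ℝ) : ℂ) * (Complex.I * (I0 / (2 * Real.pi * Complex.I))) := by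
      push_cast
      field_simp
    conv_lhs => rw [h5]
    rw [Complex.im_ofReal_mul, Complex.I_mul_im]
  rw [h3, Complex.neg_im, h4, re_aa haa k i (hV 0 (by rw [norm_zero]; exact hR.le)), hb0]
  unfold qf
  by_cases h : k = i
  · simp only [h, if_true]
    simp
    ring
  · simp only [h, if_false]
    ring

omit haad haa in
/-- The quadratic form on a loop. -/
theorem loop_form (hβ : ∀ M : ℕ, ∑ m ∈ Finset.Icc 1 M, (m : ℝ) * ‖fc R' b m * (κ / R') ^ m‖ ^ 2 ≤
      -Real.log ‖κ‖) (c : Fin n → ℝ) (hc : ∑ i, c i = 0) :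
    Real.pi * -Real.log ‖κ‖ * ∑ i, c i ^ 2 ≤
      ∑ k, ∑ i, c k * c i * pr Z (fun s => φ k (circ R s) - φ i 0) := by
  have h0V : (0 : ℂ) ∈ V := hV 0 (by rw [norm_zero]; exact hR.le)
  obtain ⟨aa, haad, haa⟩ := exists_logs H h0V
  choose S hS hpr using fun k i => pr_eq H hR hR' hV hV' hVo' hb hb0 hκ0 hκ hZ hZb haad haa k i
  have h1 := form_ge H hR hV haad haa c hc (β := fun m => fc R' b m * (κ / R') ^ m) hβ hS
  have h2 : ∑ k, ∑ i, c k * c i * pr Z (fun s => φ k (circ R s) - φ i 0) =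
      2 * Real.pi * (-Real.log ‖κ‖ * ∑ i, c i ^ 2 +
        ∑ k, ∑ i, c k * c i * (qf φ R k i + (S k i).re)) := by
    rw [mul_add, Finset.mul_sum, Finset.mul_sum, Finset.mul_sum, ← Finset.sum_add_distrib]
    refine Finset.sum_congr rfl fun k _ => ?_
    rw [Finset.mul_sum]
    have h3 : 2 * Real.pi * (-Real.log ‖κ‖ * c k ^ 2) =
        ∑ i, if k = i then 2 * Real.pi * (-Real.log ‖κ‖ * (c k * c i)) else 0 := by
      rw [Finset.sum_ite_eq, if_pos (Finset.mem_univ k)]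
      ring
    rw [h3, ← Finset.sum_add_distrib]
    refine Finset.sum_congr rfl fun i _ => ?_
    rw [hpr]
    by_cases h : k = i
    · rw [if_pos h, if_pos h]
      ring
    · rw [if_neg h, if_neg h]
      ring
  rw [h2]
  have hpi := Real.pi_pos
  nlinarith

end

end Pool.Agent.Run7.h406.Fb
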