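import Pool.Agent.Run7.h406.Fb.Tori
set_option autoImplicit false

/-!
The independence of the regulators on the fibrations
`z + y_1 + ... + y_q + 1/(z ∏ y_i ^ (w_i + 1)) = λ ∏_i (x - b_i)`.
-/

namespace Pool.Agent.Run7.h406.Fb

open MeasureTheory Set Filter Topology Metric Polynomial

open Pool.Agent.TH826.MK

open Pool.Agent.TH826.UH (pr NZ)

open Pool.Agent.Y775.CC

open Pool.Agent.N686.DI (fc vv norm_vv nz_vv nz_X prod_sub contDiff_gc vv_add_one)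

open Pool.Agent.TH690.PF (PRing POpen mPhi fl pent ux uy uz pcst PPt mkP mkP_ux mkP_uy mkP_uz
  eval_mPhi SmoothPts IndepReg)

section torus

variable {K : Type*} [Field K] {q r : ℕ} {w : Fin q → ℕ} {σ : K →+* ℂ} {lam : K}
  {a : (k : Fin 1) → Fin (r + 1) → K}

/-- A torus and its regulators. -/
theorem exists_torus {z : (Fin (1 + q) → ℝ) → ℂ} (hz : Good z)
    (hzp : ∀ θ i, z (θ + Pi.single i 1) = z θ) {ξ : ℝ → ℂ} (hξ : ContDiff ℝ 2 ξ)
    (hξp : ∀ s, ξ (s + 1) = ξ s)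
    (hPt : ∀ θ : Fin (1 + q) → ℝ, PPt w σ (mPhi (m := fun _ => r) lam a)
      (fun _ => ξ (θ (i1 q))) (yy θ) (z θ)) :
    ∃ Γ : Torus (POpen w (mPhi (m := fun _ => r) lam a)) (1 + q),
      (∀ θ u, Γ.e θ (pcst w (mPhi (m := fun _ => r) lam a) u) = σ u) ∧
      ∀ i : (k : Fin 1) → Fin r, Γ.reg (symb (pent (m := fun _ => r) w lam a i)) =
        pairing (ent z fun s => (ξ s - σ (a 0 (i 0).succ)) / (ξ s - σ (a 0 0))) := by
  have hyc : ContDiff ℝ 2 fun θ : Fin (1 + q) → ℝ => yy θ := contDiff_pi.2 fun j => contDiff_yy j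
  have hXc : ContDiff ℝ 2 fun (θ : Fin (1 + q) → ℝ) (_ : Fin 1) => ξ (θ (i1 q)) :=
    contDiff_pi.2 fun _ => hξ.comp (contDiff_apply ℝ ℝ (i1 q))
  have hXp : ∀ (θ : Fin (1 + q) → ℝ) i, (fun (_ : Fin 1) =>
      ξ ((θ + Pi.single i 1 : Fin (1 + q) → ℝ) (i1 q))) = fun _ => ξ (θ (i1 q)) := by
    intro θ i
    funext _
    by_cases h : i1 q = i
    · rw [Pi.add_apply, h, Pi.single_eq_same, hξp]
    · rw [Pi.add_apply, Pi.single_eq_of_ne h, add_zero]
  refine ⟨mkP (fun θ _ => ξ (θ (i1 q))) yy z hXc hyc hz.smooth hXp yy_add hzp hPt,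
    fun θ u => (hPt θ).evA_pcst u, fun i => ?_⟩
  set Γ := mkP (fun θ _ => ξ (θ (i1 q))) yy z hXc hyc hz.smooth hXp yy_add hzp hPt with hΓ
  have hux : ∀ (e : (_ : Fin 1) × Fin (r + 1)) θ, Γ.fn
      (Units.val (ux (m := fun _ => r) w lam a e)) θ = ξ (θ (i1 q)) - σ (a e.1 e.2) := by
    intro e θ
    exact congrFun (mkP_ux (m := fun _ => r) (fun θ _ => ξ (θ (i1 q))) yy z hXc hyc hz.smooth hXp
      yy_add hzp hPt e) θ
  have hquot : ∀ (e e' : (_ : Fin 1) × Fin (r + 1)) θ, Γ.fn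
      (Units.val (ux (m := fun _ => r) w lam a e / ux (m := fun _ => r) w lam a e')) θ =
      (ξ (θ (i1 q)) - σ (a e.1 e.2)) / (ξ (θ (i1 q)) - σ (a e'.1 e'.2)) := by
    intro e e' θ
    rw [← hux e θ, ← hux e' θ, eq_div_iff ((Γ.good _).ne_zero θ)]
    unfold Torus.fn
    rw [← map_mul, ← Units.val_mul, div_mul_cancel]
  rw [Torus.reg_symb]
  unfold Torus.pair
  congr 1
  funext l
  refine Fin.cases ?_ (fun l => ?_) l
  · exact mkP_uz (fun θ _ => ξ (θ (i1 q))) yy z hXc hyc hz.smooth hXp yy_add hzp hPt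
  · refine Fin.addCases (fun k0 => ?_) (fun j => ?_) l
    · rw [Subsingleton.elim k0 0]
      have h3 : pent (m := fun _ => r) w lam a i (Fin.castAdd q 0).succ =
          ux (m := fun _ => r) w lam a ⟨0, (i 0).succ⟩ /
            ux (m := fun _ => r) w lam a ⟨0, 0⟩ := by
        unfold pent
        rw [Fin.cons_succ, Fin.append_left]
      rw [h3]
      refine Eq.trans ?_ (ent_one _ _).symm
      funext θ
      exact hquot ⟨0, (i 0).succ⟩ ⟨0, 0⟩ θ
    · have h3 : pent (m := fun _ => r) w lam a i (Fin.natAdd 1 j).succ =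
          uy w (mPhi (m := fun _ => r) lam a) j := by
        unfold pent
        rw [Fin.cons_succ, Fin.append_right]
      rw [h3, ent_inr]
      exact mkP_uy (fun θ _ => ξ (θ (i1 q))) yy z hXc hyc hz.smooth hXp yy_add hzp hPt j

end torus

section main

variable {K : Type*} [Field K] {q r : ℕ} (w : Fin q → ℕ) {σ : K →+* ℂ} {lam : K}
  {b : Fin (r + 1) → K}

/-- the data for a positive number of critical points -/
theorem exists_data (hr : 0 < r) {β : Fin (r + 1) → ℂ} (hβi : Function.Injective β) {Λ : ℂ}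
    (hΛ0 : Λ ≠ 0) (hcrit : ∀ x : ℂ, (derivative (∏ i, (X - C (β i)))).eval x = 0 →
      (q : ℝ) + 2 < ‖Λ‖ * ‖∏ i, (x - β i)‖) :
    ∃ (μ R : ℝ) (κ : ℂ) (G : ℂ[X]) (V : Set ℂ) (φ : Fin (r + 1) → ℂ → ℂ), 0 < μ ∧ 0 < R ∧
      κ ≠ 0 ∧ ‖κ‖ * ((q : ℝ) + 2) < 1 ∧ Branches G V φ ∧ (∀ z : ℂ, ‖z‖ ≤ R → z ∈ V) ∧
      (∀ i, (μ : ℂ) * φ i 0 = β i) ∧
      ∀ k t, Λ * ∏ i, ((μ : ℂ) * φ k (circ R t) - β i) = 1 / vv κ t := by
  obtain ⟨ξ, hξ, hξ0, hmin⟩ := Pool.Agent.N686.DI.exists_min_crit hr β hβi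
  set c : ℝ := ‖∏ i, (ξ - β i)‖ with hc
  have hΛ : 0 < ‖Λ‖ := norm_pos_iff.2 hΛ0
  have hbig : (q : ℝ) + 2 < ‖Λ‖ * c := hcrit ξ hξ
  have hq0 : (0 : ℝ) ≤ q := Nat.cast_nonneg q
  obtain ⟨μ, hμ, G, φ, H, h0, hprod⟩ := Pool.Agent.N686.DI.exists_branches_at (Nat.succ_pos r) β hβi
    hξ0 (fun x hx => by
      have h1 := hmin x hx
      rw [eval_prod]
      simpa using h1)
  have hμc : (μ : ℂ) ≠ 0 := by exact_mod_cast hμ.ne'
  have hμn : (0 : ℝ) < μ ^ (r + 1) := pow_pos hμ _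
  obtain ⟨s, hs0, hs1, hs⟩ : ∃ s : ℝ, 0 < s ∧ s < 1 ∧ (q : ℝ) + 2 < ‖Λ‖ * (s * c) := by
    have h2 : ((q : ℝ) + 2) / (‖Λ‖ * c) < 1 := by
      rw [div_lt_one (by positivity)]
      exact hbig
    have h3 : 0 < ((q : ℝ) + 2) / (‖Λ‖ * c) := by positivity
    refine ⟨(((q : ℝ) + 2) / (‖Λ‖ * c) + 1) / 2, by linarith, by linarith, ?_⟩
    have h4 : (q : ℝ) + 2 = ((q : ℝ) + 2) / (‖Λ‖ * c) * (‖Λ‖ * c) := by
      rw [div_mul_cancel₀ _ (by positivity)]
    have h5 : ((q : ℝ) + 2) / (‖Λ‖ * c) * (‖Λ‖ * c) <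
        (((q : ℝ) + 2) / (‖Λ‖ * c) + 1) / 2 * (‖Λ‖ * c) := by
      refine mul_lt_mul_of_pos_right ?_ (by positivity)
      linarith
    calc (q : ℝ) + 2 = _ := h4
      _ < _ := h5
      _ = _ := by ring
  set R : ℝ := s * c / μ ^ (r + 1) with hR
  have hR0 : 0 < R := by positivity
  have hRc : R < c / μ ^ (r + 1) := by
    rw [hR]
    refine div_lt_div_of_pos_right ?_ hμn
    nlinarith
  have hV : ∀ z : ℂ, ‖z‖ ≤ R → z ∈ ball (0 : ℂ) (c / μ ^ (r + 1)) := fun z hz => by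
    rw [mem_ball_zero_iff]
    linarith
  have hRcc : (R : ℂ) ≠ 0 := by exact_mod_cast hR0.ne'
  refine ⟨μ, R, (Λ * (μ : ℂ) ^ (r + 1) * R)⁻¹, G, _, φ, hμ, hR0,
    inv_ne_zero (mul_ne_zero (mul_ne_zero hΛ0 (pow_ne_zero _ hμc)) hRcc), ?_, H, hV, h0,
    fun k t => ?_⟩
  · have hκn : ‖(Λ * (μ : ℂ) ^ (r + 1) * R)⁻¹‖ = (‖Λ‖ * (s * c))⁻¹ := by
      rw [norm_inv, norm_mul, norm_mul, norm_pow, Complex.norm_real, Complex.norm_real,
        Real.norm_eq_abs, Real.norm_eq_abs, abs_of_pos hμ, abs_of_pos hR0, hR]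
      congr 1
      field_simp
    rw [hκn, inv_mul_lt_iff₀ (by positivity)]
    linarith
  · rw [hprod k _ (hV _ (norm_circ hR0.le _).le)]
    unfold vv
    rw [one_div_div, div_inv_eq_mul, Pool.Agent.N686.EL.circ_eq_mul R t, Nat.succ_eq_add_one]
    ring

/-- **The independence of the regulators.** -/
theorem indepReg (hl : lam ≠ 0) (hinj : Function.Injective b)
    (hcrit : ∀ x : ℂ, (derivative (∏ i, (X - C (σ (b i))))).eval x = 0 →
      (q : ℝ) + 2 < ‖σ lam‖ * ‖∏ i, (x - σ (b i))‖) :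
    IndepReg (n := 1) (m := fun _ => r) w σ lam (fun _ => b) := by
  classical
  rcases Nat.eq_zero_or_pos r with hr | hr
  · subst hr
    have : IsEmpty ((k : Fin 1) → Fin 0) := ⟨fun i => (i 0).elim0⟩
    exact ⟨fun t => isEmptyElim t, fun t => isEmptyElim t, by
      rw [Matrix.det_isEmpty]
      exact one_ne_zero⟩
  obtain ⟨μ, R, κ, G, V, φ, hμ, hR0, hκ0, hκq, H, hV, h0, hF⟩ := exists_data (q := q) hr
    (β := fun i => σ (b i)) (fun i j h => hinj (σ.injective h)) ((map_ne_zero σ).2 hl) hcrit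
  have hμc : (μ : ℂ) ≠ 0 := by exact_mod_cast hμ.ne'
  have hzg := good_zz w hκ0 hκq
  have hval : ∀ k (θ : Fin (1 + q) → ℝ), MvPolynomial.eval₂ σ
      (fun _ : Fin 1 => (μ : ℂ) * φ k (circ R (θ (i1 q))))
      (mPhi (n := 1) (m := fun _ => r) lam fun _ => b) =
      1 / vv κ (θ (i1 q)) := by
    intro k θ
    rw [eval_mPhi, Fintype.prod_sigma, ← hF k]
    simp only [Finset.univ_unique, Finset.prod_singleton]
  have hPt : ∀ k (θ : Fin (1 + q) → ℝ), PPt w σ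
      (mPhi (n := 1) (m := fun _ => r) lam fun _ => b) (fun _ => (μ : ℂ) * φ k (circ R (θ (i1 q)))) (yy θ) (zz w κ θ) := by
    intro k θ
    obtain ⟨h1, -, -, h4⟩ := root_at w hκ0 hκq θ
    refine ⟨?_, ?_⟩
    · rw [hval]
      have h2 : (∏ j, yy θ j ^ (w j + 1)) * eta w θ = 1 := by
        unfold eta
        exact mul_inv_cancel₀ (Finset.prod_ne_zero_iff.2 fun j _ => pow_ne_zero _ (yy_ne θ j))
      unfold aA at h4
      linear_combination (∏ j, yy θ j ^ (w j + 1)) * h4 - h2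
    · rw [hval]
      exact one_div_ne_zero ((nz_vv hκ0).ne_zero _)
  have hξ : ∀ k, ContDiff ℝ 2 fun s => (μ : ℂ) * φ k (circ R s) := fun k =>
    contDiff_const.mul (contDiff_gc hV (H.differentiableOn k) H.isOpen (contDiff_circ R)
      fun t => (norm_circ hR0.le t).le)
  have hex := fun k => exists_torus (w := w) (σ := σ) (lam := lam) (a := fun _ => b) hzg
    (zz_add w) (hξ k) (fun s => by rw [circ_add_one]) (hPt k)
  choose Γ hΓ1 hΓ2 using hex
  have hfr : ∀ k (i : Fin r) (s : ℝ), ((μ : ℂ) * φ k (circ R s) - σ (b i.succ)) /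
      ((μ : ℂ) * φ k (circ R s) - σ (b 0)) =
      (φ k (circ R s) - φ i.succ 0) / (φ k (circ R s) - φ 0 0) := by
    intro k i s
    rw [← h0, ← h0, ← mul_sub, ← mul_sub, mul_div_mul_left _ _ hμc]
  have hreg : ∀ k (i : (k : Fin 1) → Fin r),
      (Γ k).reg (symb (pent (m := fun _ => r) w lam (fun _ => b) i)) =
      NN φ R w κ k (i 0).succ - NN φ R w κ k 0 := by
    intro k i
    rw [hΓ2]
    unfold NN
    rw [← pairing_ent_div hzg (nz_X H hR0 hV k _) (nz_X H hR0 hV k _)]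
    simp only [hfr]
  have key := det_ne_zero_of_form (ι := (k : Fin 1) → Fin r) (NN φ R w κ)
    (sum_NN H hR0 hV w hκ0 hκq)
    (fun c hc hc0 => (NN_pos H hR0 hV w hκ0 hκq c hc hc0).ne') (fun t => (t 0).succ)
    (fun t t' h => by
      funext k
      rw [Subsingleton.elim k 0]
      exact Fin.succ_injective _ h) 0 (fun t => Fin.succ_ne_zero _) (fun k => by
      rcases Fin.eq_zero_or_eq_succ k with h | ⟨j, h⟩
      · exact Or.inl h
      · exact Or.inr ⟨fun _ => j, h.symm⟩)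
  refine ⟨fun t => Γ (t 0).succ, fun t => hΓ1 _, ?_⟩
  have hM : (Matrix.of fun t i : (k : Fin 1) → Fin r =>
      (Γ (t 0).succ).reg (symb (pent (m := fun _ => r) w lam (fun _ => b) i))) =
      Matrix.of fun t i : (k : Fin 1) → Fin r =>
        NN φ R w κ (t 0).succ (i 0).succ - NN φ R w κ (t 0).succ 0 := by
    ext t i
    rw [Matrix.of_apply, Matrix.of_apply, hreg]
  rw [hM]
  intro h0
  apply key
  rw [← h0]

end main

end Pool.Agent.Run7.h406.Fb
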