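import Pool.Agent.Run7.h406.Fb.Wser
set_option autoImplicit false

/-!
The series `log (v z(v)) = -∑ c_m v^m/m` for the outer root `z(v)` of `z + S + η/z = 1/v`.
-/

namespace Pool.Agent.Run7.h406.Fb

open MeasureTheory Set Filter Topology Metric

open Pool.Agent.TH826.MK (circ norm_circ contDiff_circ circ_add_one)

open Pool.Agent.N686.DI (mean_eq)

set_option maxHeartbeats 400000

/-- the function on the circle -/
noncomputable def ww (S η : ℂ) (t : ℝ) : ℂ := circ 1 t + S + η / circ 1 t

/-- the moments -/
noncomputable def cT (S η : ℂ) (m : ℕ) : ℂ := ∫ t in (0 : ℝ)..1, ww S η t ^ m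

/-- the mean of the logarithm -/
noncomputable def bb (S η v : ℂ) : ℂ := ∫ t in (0 : ℝ)..1, Complex.log (1 - v * ww S η t)

/-- the moments in the extreme case -/
noncomputable def cc (q : ℝ) (m : ℕ) : ℝ :=
  ∫ t in (0 : ℝ)..1, (q + 2 * Real.cos (2 * Real.pi * t)) ^ m

theorem circ_ne (t : ℝ) : circ 1 t ≠ 0 := by
  rw [← norm_ne_zero_iff, norm_circ zero_le_one]
  exact one_ne_zero

theorem continuous_circ (r : ℝ) : Continuous (circ r) := (contDiff_circ r (n := 0)).continuous

theorem continuous_ww (S η : ℂ) : Continuous (ww S η) := by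
  unfold ww
  exact ((continuous_circ 1).add continuous_const).add
    (continuous_const.div (continuous_circ 1) circ_ne)

section bounds

variable {S η v : ℂ} {q : ℝ} (hS : ‖S‖ ≤ q) (hη : ‖η‖ = 1)

include hS hη

theorem norm_ww_le (t : ℝ) : ‖ww S η t‖ ≤ q + 2 := by
  unfold ww
  refine (norm_add_le _ _).trans ?_
  have h1 := norm_add_le (circ 1 t) S
  rw [norm_circ zero_le_one] at h1
  rw [norm_div, norm_circ zero_le_one, hη]
  linarith

theorem norm_vw_le (v : ℂ) (t : ℝ) : ‖v * ww S η t‖ ≤ ‖v‖ * (q + 2) := by
  rw [norm_mul]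
  exact mul_le_mul_of_nonneg_left (norm_ww_le hS hη t) (norm_nonneg _)

theorem slit_ww (hv : ‖v‖ * (q + 2) < 1) (t : ℝ) : 1 - v * ww S η t ∈ Complex.slitPlane := by
  rw [sub_eq_add_neg]
  refine Complex.mem_slitPlane_of_norm_lt_one ?_
  rw [norm_neg]
  exact (norm_vw_le hS hη v t).trans_lt hv

/-- The series. -/
theorem hasSum_bb (hv : ‖v‖ * (q + 2) < 1) :
    HasSum (fun m : ℕ => -(cT S η m / m) * v ^ m) (bb S η v) := by
  have hq : 0 ≤ q := (norm_nonneg S).trans hS
  set r := ‖v‖ * (q + 2) with hr
  have hr0 : 0 ≤ r := by positivity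
  have key := intervalIntegral.hasSum_integral_of_dominated_convergence (μ := volume) (a := (0 : ℝ))
    (b := 1) (F := fun (m : ℕ) t => -((v * ww S η t) ^ m / m))
    (f := fun t => Complex.log (1 - v * ww S η t))
    (bound := fun m _ => r ^ m) (fun m => by
      have h1 : Continuous fun t => -((v * ww S η t) ^ m / (m : ℂ)) :=
        (((continuous_const.mul (continuous_ww S η)).pow m).div_const _).neg
      exact h1.aestronglyMeasurable) (fun m => by
      refine Filter.Eventually.of_forall fun t ht => ?_
      rw [norm_neg, norm_div, norm_pow, Complex.norm_natCast]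
      have h1 := norm_vw_le hS hη v t
      rcases Nat.eq_zero_or_pos m with hm | hm
      · subst hm
        simp
      · have hm1 : (1 : ℝ) ≤ m := by exact_mod_cast hm
        calc ‖v * ww S η t‖ ^ m / m ≤ ‖v * ww S η t‖ ^ m / 1 :=
              div_le_div_of_nonneg_left (by positivity) one_pos hm1
          _ = ‖v * ww S η t‖ ^ m := div_one _
          _ ≤ r ^ m := pow_le_pow_left₀ (norm_nonneg _) h1 m) (by
      refine Filter.Eventually.of_forall fun t _ => ?_
      exact summable_geometric_of_lt_one hr0 hv) (by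
      exact intervalIntegrable_const) (by
      refine Filter.Eventually.of_forall fun t _ => ?_
      have h1 := (Complex.hasSum_taylorSeries_neg_log (z := v * ww S η t)
        ((norm_vw_le hS hη v t).trans_lt hv)).neg
      rwa [neg_neg] at h1)
  have h2 : ∀ m : ℕ, ∫ t in (0 : ℝ)..1, -((v * ww S η t) ^ m / (m : ℂ)) =
      -(cT S η m / m) * v ^ m := by
    intro m
    unfold cT
    have h3 : ∀ t, -((v * ww S η t) ^ m / (m : ℂ)) = -(v ^ m / m) * ww S η t ^ m := by
      intro t
      rw [mul_pow]
      ring
    simp only [h3]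
    rw [intervalIntegral.integral_const_mul]
    ring
  simp only [h2] at key
  exact key

omit hS hη in
theorem bb_zero : bb S η 0 = 0 := by
  unfold bb
  simp

/-- The outer root. -/
theorem exists_root (hv0 : v ≠ 0) (hv : ‖v‖ * (q + 2) < 1) :
    ‖η / (1 / v - S) ^ 2‖ < 1 / 4 ∧
    1 < ‖(1 / v - S) * he (η / (1 / v - S) ^ 2)‖ ∧
    (1 / v - S) * he (η / (1 / v - S) ^ 2) * v = Complex.exp (bb S η v) ∧
    ((1 / v - S) * he (η / (1 / v - S) ^ 2)) ^ 2 -
      (1 / v - S) * ((1 / v - S) * he (η / (1 / v - S) ^ 2)) + η = 0 := by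
  have hq : 0 ≤ q := (norm_nonneg S).trans hS
  set A := 1 / v - S with hA
  have hvn : 0 < ‖v‖ := norm_pos_iff.2 hv0
  have hAn : 2 < ‖A‖ := by
    have h1 := norm_sub_norm_le (1 / v) S
    rw [norm_div, norm_one] at h1
    have h2 : q + 2 < 1 / ‖v‖ := by
      rw [lt_div_iff₀ hvn]
      linarith
    linarith
  have hA0 : A ≠ 0 := norm_pos_iff.1 (by linarith)
  set e := η / A ^ 2 with he'
  have he4 : ‖e‖ < 1 / 4 := by
    rw [he', norm_div, hη, norm_pow]
    rw [div_lt_div_iff₀ (by positivity) (by norm_num)]
    nlinarith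
  have hhe := he_eq he4
  have hηe : η = e * A ^ 2 := by
    rw [he', div_mul_cancel₀ _ (pow_ne_zero 2 hA0)]
  set zp := A * he e with hzp
  set zm := A * (1 - he e) with hzm
  have hprod : zp * zm = η := by
    rw [hzp, hzm, hηe]
    linear_combination (-(A ^ 2)) * hhe
  have hsum : zp + zm = A := by
    rw [hzp, hzm]
    ring
  have hlt : ‖zm‖ < ‖zp‖ := by
    rw [hzp, hzm, norm_mul, norm_mul]
    exact mul_lt_mul_of_pos_left (norm_one_sub_he he4) (by linarith)
  have hn : ‖zp‖ * ‖zm‖ = 1 := by rw [← norm_mul, hprod, hη]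
  have hzp1 : 1 < ‖zp‖ := by
    by_contra hcon
    push Not at hcon
    have h1 : ‖zp‖ * ‖zm‖ < 1 := by
      have h2 := norm_nonneg zm
      nlinarith [norm_nonneg zp]
    linarith
  have hzm1 : ‖zm‖ < 1 := by
    by_contra hcon
    push Not at hcon
    nlinarith
  have hzp0 : zp ≠ 0 := norm_pos_iff.1 (by linarith)
  refine ⟨he4, hzp1, ?_, ?_⟩
  · -- the logarithms
    set g : ℝ → ℂ := fun t => Complex.log (1 - v * ww S η t) - Complex.log (1 - circ 1 t / zp) -
      Complex.log (1 - zm * (circ 1 t)⁻¹) with hg
    have s1 : ∀ w : ℂ, ‖w‖ < ‖zp‖ → 1 - w / zp ∈ Complex.slitPlane := by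
      intro w hw
      rw [sub_eq_add_neg]
      refine Complex.mem_slitPlane_of_norm_lt_one ?_
      rw [norm_neg, norm_div, div_lt_one (by linarith)]
      exact hw
    have s2 : ∀ w : ℂ, ‖w‖ * ‖zm‖ < 1 → 1 - zm * w ∈ Complex.slitPlane := by
      intro w hw
      rw [sub_eq_add_neg]
      refine Complex.mem_slitPlane_of_norm_lt_one ?_
      rw [norm_neg, norm_mul]
      linarith
    have hn1 : ∀ t, ‖circ 1 t‖ = 1 := fun t => norm_circ zero_le_one t
    have c0 : Continuous fun t => Complex.log (1 - v * ww S η t) :=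
      (continuous_const.sub (continuous_const.mul (continuous_ww S η))).clog
        (slit_ww hS hη hv)
    have c1 : Continuous fun t => Complex.log (1 - circ 1 t / zp) :=
      (continuous_const.sub ((continuous_circ 1).div_const zp)).clog
        fun t => s1 _ (by rw [hn1]; exact hzp1)
    have c2 : Continuous fun t => Complex.log (1 - zm * (circ 1 t)⁻¹) := by
      have c3 : Continuous fun t => (circ 1 t)⁻¹ := (continuous_circ 1).inv₀ circ_ne
      exact (continuous_const.sub (continuous_const.mul c3)).clog
        fun t => s2 (circ 1 t)⁻¹ (by rw [norm_inv, hn1, inv_one, one_mul]; exact hzm1)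
    have hgc : Continuous g := (c0.sub c1).sub c2
    have hexp : ∀ t, Complex.exp (g t) = v * zp := by
      intro t
      have a0 := Complex.slitPlane_ne_zero (slit_ww hS hη hv t)
      have a1 := Complex.slitPlane_ne_zero (s1 (circ 1 t) (by rw [hn1]; exact hzp1))
      have a2 := Complex.slitPlane_ne_zero (s2 (circ 1 t)⁻¹ (by
        rw [norm_inv, hn1, inv_one, one_mul]; exact hzm1))
      simp only [hg]
      rw [Complex.exp_sub, Complex.exp_sub, Complex.exp_log a0, Complex.exp_log a1,
        Complex.exp_log a2, div_div, div_eq_iff (mul_ne_zero a1 a2)]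
      have hc := circ_ne t
      have hvA : v * A = 1 - v * S := by
        rw [hA]
        field_simp
      have h3 : v * zp * ((1 - circ 1 t / zp) * (1 - zm * (circ 1 t)⁻¹)) =
          v * (zp + zm) - v * circ 1 t - v * (zp * zm) * (circ 1 t)⁻¹ := by
        field_simp
        ring
      rw [h3, hsum, hprod, hvA]
      unfold ww
      rw [div_eq_mul_inv]
      ring
    have hconst := eq_of_exp_eq hgc hexp
    have i1 : ∫ t in (0 : ℝ)..1, Complex.log (1 - circ 1 t / zp) = 0 := by
      have h3 : DifferentiableOn ℂ (fun w => Complex.log (1 - w / zp)) (ball 0 ‖zp‖) := by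
        intro w hw
        refine DifferentiableAt.differentiableWithinAt ?_
        exact (((differentiableAt_id).div_const zp).const_sub 1).clog
          (s1 w (by simpa using hw))
      have h4 := mean_eq one_pos (V := ball 0 ‖zp‖) (fun z hz => by
        rw [mem_ball_zero_iff]
        linarith) h3
      rw [h4]
      simp
    have i2 : ∫ t in (0 : ℝ)..1, Complex.log (1 - zm * (circ 1 t)⁻¹) = 0 := by
      have hinv : ∀ t, (circ 1 t)⁻¹ = circ 1 (-t) := by
        intro t
        unfold circ
        push_cast
        rw [one_mul, one_mul, ← Complex.exp_neg]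
        congr 1
        ring
      obtain ⟨r, hr1, hr2⟩ : ∃ r : ℝ, 1 < r ∧ r * ‖zm‖ < 1 := by
        refine ⟨(1 + ‖zp‖) / 2, by linarith, ?_⟩
        nlinarith
      have h3 : DifferentiableOn ℂ (fun w => Complex.log (1 - zm * w)) (ball 0 r) := by
        intro w hw
        refine DifferentiableAt.differentiableWithinAt ?_
        refine (((differentiableAt_id).const_mul zm).const_sub 1).clog (s2 w ?_)
        have h4 : ‖w‖ < r := by simpa using hw
        exact (mul_le_mul_of_nonneg_right h4.le (norm_nonneg _)).trans_lt hr2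
      have h4 := mean_eq one_pos (V := ball 0 r) (fun z hz => by
        rw [mem_ball_zero_iff]
        linarith) h3
      simp only [hinv]
      have h5 := intervalIntegral.integral_comp_neg (a := (0 : ℝ)) (b := 1)
        (f := fun t => Complex.log (1 - zm * circ 1 t))
      rw [neg_zero] at h5
      rw [h5]
      have h6 : Function.Periodic (fun t => Complex.log (1 - zm * circ 1 t)) 1 := fun t => by
        simp only [circ_add_one]
      have h7 := h6.intervalIntegral_add_eq (-1) 0
      rw [neg_add_cancel, zero_add] at h7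
      rw [h7, h4]
      simp
    have h5 : bb S η v = g 0 := by
      have h6 : ∫ t in (0 : ℝ)..1, g t = g 0 := by
        have : ∀ t, g t = g 0 := hconst
        simp only [this]
        simp
      rw [← h6]
      simp only [hg]
      have c3 : Continuous fun t => Complex.log (1 - v * ww S η t) -
        Complex.log (1 - circ 1 t / zp) := c0.sub c1
      rw [intervalIntegral.integral_sub (c3.intervalIntegrable _ _)
        (c2.intervalIntegrable _ _), intervalIntegral.integral_sub (c0.intervalIntegrable _ _)
        (c1.intervalIntegrable _ _), i1, i2, sub_zero, sub_zero]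
      rfl
    rw [h5, hexp, mul_comm]
  · rw [hzp]
    linear_combination (A ^ 2) * hhe + hηe

end bounds

end Pool.Agent.Run7.h406.Fb
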