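import Pool.Agent.Run7.h406.Fb.Ser
import Pool.Agent.Run7.h406.Fb.Loop
set_option autoImplicit false

/-!
Bounds for the coefficients of the series of the logarithm of the outer root.
-/

namespace Pool.Agent.Run7.h406.Fb

open MeasureTheory Set Filter Topology Metric

open Pool.Agent.TH826.MK (circ norm_circ contDiff_circ circ_add_one)

open Pool.Agent.N686.DI (mean_eq fc hasSum_fc)

set_option maxHeartbeats 400000

section powser

/-- power series -/
theorem hasFPowerSeries {f : ℂ → ℂ} {c : ℕ → ℂ} {r : ℝ} (hr : 0 < r)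
    (h : ∀ v, ‖v‖ < r → HasSum (fun m => c m * v ^ m) (f v)) :
    HasFPowerSeriesOnBall f (FormalMultilinearSeries.ofScalars ℂ c) 0 (ENNReal.ofReal r) := by
  constructor
  · refine ENNReal.le_of_forall_nnreal_lt fun s hs => ?_
    have hs' : (s : ℝ) < r := by
      rw [ENNReal.lt_ofReal_iff_toReal_lt ENNReal.coe_ne_top] at hs
      simpa using hs
    refine FormalMultilinearSeries.le_radius_of_summable_norm _ ?_
    have h1 := (h (s : ℝ) (by
      rw [Complex.norm_real, Real.norm_of_nonneg s.coe_nonneg]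
      exact hs')).summable.norm
    refine h1.congr fun m => ?_
    rw [FormalMultilinearSeries.ofScalars_norm, norm_mul, norm_pow, Complex.norm_real,
      Real.norm_of_nonneg s.coe_nonneg]
  · simpa using hr
  · intro y hy
    have hy' : ‖y‖ < r := by
      rw [Metric.mem_eball, edist_zero_right, ← ofReal_norm,
        ENNReal.ofReal_lt_ofReal_iff hr] at hy
      exact hy
    have h1 := h y hy'
    rw [zero_add]
    refine (funext fun m => ?_ : (fun m => FormalMultilinearSeries.ofScalars ℂ c m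
      fun _ => y) = _) ▸ h1
    rw [FormalMultilinearSeries.ofScalars_apply_eq, smul_eq_mul]

theorem coeff_unique {f : ℂ → ℂ} {c d : ℕ → ℂ} {r : ℝ} (hr : 0 < r)
    (h : ∀ v, ‖v‖ < r → HasSum (fun m => c m * v ^ m) (f v))
    (h' : ∀ v, ‖v‖ < r → HasSum (fun m => d m * v ^ m) (f v)) : c = d :=
  FormalMultilinearSeries.ofScalars_series_injective (𝕜 := ℂ) ℂ
    ((hasFPowerSeries hr h).hasFPowerSeriesAt.eq_formalMultilinearSeries
      (hasFPowerSeries hr h').hasFPowerSeriesAt)

end powser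

section moments

theorem continuous_cos2 : Continuous fun t : ℝ => Real.cos (2 * Real.pi * t) := by fun_prop

/-- translations -/
theorem int_translate {E : Type*} [NormedAddCommGroup E] [NormedSpace ℝ E] {f : ℝ → E}
    (hf : Function.Periodic f 1) (a : ℝ) :
    ∫ t in (0 : ℝ)..1, f (t + a) = ∫ t in (0 : ℝ)..1, f t := by
  have h2 := hf.intervalIntegral_add_eq a 0
  rw [zero_add] at h2
  rw [intervalIntegral.integral_comp_add_right (fun t => f t) a, zero_add, add_comm 1 a]
  exact h2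

/-- the moments of the cosine are nonnegative -/
theorem cos_moment_nonneg (j : ℕ) :
    0 ≤ ∫ t in (0 : ℝ)..1, (2 * Real.cos (2 * Real.pi * t)) ^ j := by
  rcases Nat.even_or_odd j with hj | hj
  · exact intervalIntegral.integral_nonneg zero_le_one fun t _ => hj.pow_nonneg _
  · have h1 : Function.Periodic (fun t : ℝ => (2 * Real.cos (2 * Real.pi * t)) ^ j) 1 := by
      intro t
      simp only
      rw [mul_add, mul_one, Real.cos_add_two_pi]
    have h2 := int_translate h1 (1 / 2)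
    have h3 : ∀ t : ℝ, (2 * Real.cos (2 * Real.pi * (t + 1 / 2))) ^ j =
        -(2 * Real.cos (2 * Real.pi * t)) ^ j := by
      intro t
      have h4 : 2 * Real.pi * (t + 1 / 2) = 2 * Real.pi * t + Real.pi := by ring
      rw [h4, Real.cos_add_pi, mul_neg, hj.neg_pow]
    simp only [h3] at h2
    rw [intervalIntegral.integral_neg] at h2
    linarith

theorem circ_add_inv (t : ℝ) : circ 1 t + (circ 1 t)⁻¹ = ((2 * Real.cos (2 * Real.pi * t) : ℝ) : ℂ) := by
  unfold circ
  push_cast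
  rw [one_mul, ← Complex.exp_neg, Complex.cos]
  have e1 : (2 * Real.pi * Complex.I * t : ℂ) = 2 * Real.pi * t * Complex.I := by ring
  rw [e1, neg_mul_eq_neg_mul]
  ring

variable {S η : ℂ} {q : ℝ}

theorem cT_extreme (q : ℝ) (m : ℕ) : cT q 1 m = ((cc q m : ℝ) : ℂ) := by
  unfold cT cc
  rw [← intervalIntegral.integral_ofReal]
  refine intervalIntegral.integral_congr fun t _ => ?_
  unfold ww
  have h := circ_add_inv t
  rw [one_div, add_right_comm, h]
  push_cast
  ring

/-- expansion of the moments -/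
theorem cc_eq (q : ℝ) (m : ℕ) : cc q m = ∑ k ∈ Finset.range (m + 1),
    q ^ (m - k) * (m.choose k) * ∫ t in (0 : ℝ)..1, (2 * Real.cos (2 * Real.pi * t)) ^ k := by
  unfold cc
  have h1 : ∀ t : ℝ, (q + 2 * Real.cos (2 * Real.pi * t)) ^ m = ∑ k ∈ Finset.range (m + 1),
      q ^ (m - k) * (m.choose k) * (2 * Real.cos (2 * Real.pi * t)) ^ k := by
    intro t
    rw [add_comm, add_pow]
    exact Finset.sum_congr rfl fun k _ => by ring
  simp only [h1]
  rw [intervalIntegral.integral_finsetSum]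
  · exact Finset.sum_congr rfl fun k _ => intervalIntegral.integral_const_mul _ _
  · intro k _
    exact (continuous_const.mul ((continuous_const.mul continuous_cos2).pow k)).intervalIntegrable
      _ _

theorem norm_cT_le (hS : ‖S‖ ≤ q) (hη : ‖η‖ = 1) (m : ℕ) : ‖cT S η m‖ ≤ cc q m := by
  obtain ⟨ζ, hζ⟩ := IsAlgClosed.exists_pow_nat_eq η (n := 2) (by norm_num)
  have hζ1 : ‖ζ‖ = 1 := by
    have h1 : ‖ζ‖ ^ 2 = 1 := by rw [← norm_pow, hζ, hη]
    exact (pow_eq_one_iff_of_nonneg (norm_nonneg _) two_ne_zero).1 h1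
  have hζ0 : ζ ≠ 0 := by
    rw [← norm_ne_zero_iff, hζ1]
    exact one_ne_zero
  set a : ℝ := ζ.arg / (2 * Real.pi) with ha
  have hca : circ 1 a = ζ := by
    unfold circ
    have h2 := Complex.norm_mul_exp_arg_mul_I ζ
    rw [hζ1] at h2
    rw [← h2]
    congr 2
    rw [ha]
    push_cast
    have : (Real.pi : ℂ) ≠ 0 := by exact_mod_cast Real.pi_ne_zero
    field_simp
  have hct : ∀ t, circ 1 (t + a) = circ 1 t * ζ := by
    intro t
    rw [← hca]
    unfold circ
    push_cast
    rw [one_mul, one_mul, one_mul, ← Complex.exp_add]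
    congr 1
    ring
  have hper : Function.Periodic (fun t => ww S η t ^ m) 1 := by
    intro t
    simp only
    unfold ww
    rw [circ_add_one]
  have h1 : cT S η m = ∫ t in (0 : ℝ)..1, ∑ k ∈ Finset.range (m + 1),
      S ^ (m - k) * (m.choose k) * ζ ^ k *
        (((2 * Real.cos (2 * Real.pi * t)) ^ k : ℝ) : ℂ) := by
    unfold cT
    rw [← int_translate hper a]
    refine intervalIntegral.integral_congr fun t _ => ?_
    have h2 : ww S η (t + a) = ζ * ((2 * Real.cos (2 * Real.pi * t) : ℝ) : ℂ) + S := by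
      unfold ww
      rw [hct, ← hζ, ← circ_add_inv]
      have := circ_ne t
      field_simp
      ring
    rw [h2, add_pow]
    refine Finset.sum_congr rfl fun k _ => ?_
    rw [mul_pow]
    push_cast
    ring
  rw [h1, intervalIntegral.integral_finsetSum]
  · rw [cc_eq]
    refine (norm_sum_le _ _).trans (Finset.sum_le_sum fun k _ => ?_)
    rw [intervalIntegral.integral_const_mul, intervalIntegral.integral_ofReal, norm_mul, norm_mul,
      norm_mul, norm_pow, norm_pow, hζ1, one_pow, mul_one, Complex.norm_natCast,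
      Complex.norm_real, Real.norm_of_nonneg (cos_moment_nonneg k)]
    refine mul_le_mul_of_nonneg_right ?_ (cos_moment_nonneg k)
    exact mul_le_mul_of_nonneg_right (pow_le_pow_left₀ (norm_nonneg _) hS _) (Nat.cast_nonneg _)
  · intro k _
    exact (continuous_const.mul (Complex.continuous_ofReal.comp
      ((continuous_const.mul continuous_cos2).pow k))).intervalIntegrable _ _

theorem cc_nonneg (hq : 0 ≤ q) (m : ℕ) : 0 ≤ cc q m := by
  have h1 := norm_cT_le (S := (q : ℂ)) (η := 1) (q := q)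
    (by rw [Complex.norm_real, Real.norm_of_nonneg hq]) norm_one m
  exact (norm_nonneg _).trans h1

theorem cc_le (hq : 0 ≤ q) (m : ℕ) : cc q m ≤ (q + 2) ^ m := by
  unfold cc
  have h1 : ∫ t in (0 : ℝ)..1, (q + 2 * Real.cos (2 * Real.pi * t)) ^ m ≤
      ∫ _t in (0 : ℝ)..1, (q + 2) ^ m := by
    refine intervalIntegral.integral_mono_on zero_le_one ?_ intervalIntegrable_const fun t _ => ?_
    · exact ((continuous_const.add (continuous_const.mul continuous_cos2)).pow m).intervalIntegrable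
        _ _
    · have h2 : |q + 2 * Real.cos (2 * Real.pi * t)| ≤ q + 2 := by
        have h3 := Real.abs_cos_le_one (2 * Real.pi * t)
        rw [abs_le] at h3 ⊢
        constructor <;> linarith
      calc (q + 2 * Real.cos (2 * Real.pi * t)) ^ m ≤ |q + 2 * Real.cos (2 * Real.pi * t)| ^ m := by
            rw [← abs_pow]
            exact le_abs_self _
        _ ≤ (q + 2) ^ m := pow_le_pow_left₀ (abs_nonneg _) h2 m
  simpa using h1

/-- the sum of the moments -/
theorem sum_cc_le (hq : 0 ≤ q) {r : ℝ} (hr0 : 0 < r) (hr : r * (q + 2) < 1) (M : ℕ) :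
    ∑ m ∈ Finset.Icc 1 M, cc q m / m * r ^ m ≤ -Real.log r := by
  have hqn : ‖(q : ℂ)‖ ≤ q := by rw [Complex.norm_real, Real.norm_of_nonneg hq]
  have hrn : ‖(r : ℂ)‖ = r := by rw [Complex.norm_real, Real.norm_of_nonneg hr0.le]
  have hrc : (r : ℂ) ≠ 0 := by exact_mod_cast hr0.ne'
  have h1 := hasSum_bb (v := (r : ℂ)) hqn (norm_one (α := ℂ)) (by rw [hrn]; exact hr)
  obtain ⟨-, h2, h3, -⟩ := exists_root (v := (r : ℂ)) hqn (norm_one (α := ℂ)) hrc
    (by rw [hrn]; exact hr)
  have h4 : Real.log r < (bb q 1 r).re := by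
    have h5 := congrArg (fun x => Real.log ‖x‖) h3
    rw [norm_mul, Complex.norm_exp, Real.log_exp, hrn, Real.log_mul (by linarith) hr0.ne'] at h5
    rw [← h5]
    have h6 := Real.log_pos h2
    linarith
  have h5 := (Complex.hasSum_re h1).neg
  have h6 : ∀ m : ℕ, -(-(cT q 1 m / m) * (r : ℂ) ^ m).re = cc q m / m * r ^ m := by
    intro m
    rw [cT_extreme]
    have : -(((cc q m : ℝ) : ℂ) / m) * (r : ℂ) ^ m = ((-(cc q m / m * r ^ m) : ℝ) : ℂ) := by
      push_cast
      ring
    rw [this, Complex.ofReal_re, neg_neg]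
  simp only [h6] at h5
  have h7 : ∑ m ∈ Finset.Icc 1 M, cc q m / m * r ^ m ≤ -(bb q 1 r).re := by
    refine sum_le_hasSum _ (fun m _ => ?_) h5
    have := cc_nonneg hq m
    positivity
  linarith

end moments

section coefs

variable {S η : ℂ} {q : ℝ} (hS : ‖S‖ ≤ q) (hη : ‖η‖ = 1)

include hS hη

theorem differentiableOn_bb : DifferentiableOn ℂ (bb S η) (ball 0 (1 / (q + 2))) := by
  have hq : 0 ≤ q := (norm_nonneg S).trans hS
  have hr : 0 < 1 / (q + 2) := by positivity
  have h1 := hasFPowerSeries (f := bb S η) (c := fun m => -(cT S η m / m)) hr fun v hv =>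
    hasSum_bb hS hη (by
      rw [lt_div_iff₀ (by linarith)] at hv
      exact hv)
  have h2 := h1.differentiableOn
  rwa [Metric.eball_ofReal] at h2

theorem fc_bb {R' : ℝ} (hR' : 0 < R') (hq : R' * (q + 2) < 1) (m : ℕ) :
    fc R' (bb S η) m = -(cT S η m / m) * (R' : ℂ) ^ m := by
  have hq0 : 0 ≤ q := (norm_nonneg S).trans hS
  have hRc : (R' : ℂ) ≠ 0 := by exact_mod_cast hR'.ne'
  have hV : ∀ z : ℂ, ‖z‖ ≤ R' → z ∈ ball (0 : ℂ) (1 / (q + 2)) := fun z hz => by
    rw [mem_ball_zero_iff, lt_div_iff₀ (by linarith)]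
    calc ‖z‖ * (q + 2) ≤ R' * (q + 2) := mul_le_mul_of_nonneg_right hz (by linarith)
      _ < 1 := hq
  have h1 := coeff_unique (f := bb S η) (c := fun m => fc R' (bb S η) m / (R' : ℂ) ^ m)
    (d := fun m => -(cT S η m / m)) hR' (fun v hv => by
      have h2 := hasSum_fc hR' hV (differentiableOn_bb hS hη) hv
      refine (funext fun m => ?_ : (fun m : ℕ => fc R' (bb S η) m / (R' : ℂ) ^ m * v ^ m) =
        _) ▸ h2
      rw [div_pow]
      ring) (fun v hv => hasSum_bb hS hη (by
      calc ‖v‖ * (q + 2) ≤ R' * (q + 2) := mul_le_mul_of_nonneg_right hv.le (by linarith)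
        _ < 1 := hq))
  have h2 := congrFun h1 m
  rw [← h2, div_mul_cancel₀ _ (pow_ne_zero m hRc)]

/-- **The bound for the coefficients.** -/
theorem sum_fc_bb_le {R' : ℝ} (hR' : 0 < R') (hq : R' * (q + 2) < 1) {κ : ℂ} (hκ0 : κ ≠ 0)
    (hκ : ‖κ‖ < R') (M : ℕ) :
    ∑ m ∈ Finset.Icc 1 M, (m : ℝ) * ‖fc R' (bb S η) m * (κ / R') ^ m‖ ^ 2 ≤
      -Real.log ‖κ‖ := by
  have hq0 : 0 ≤ q := (norm_nonneg S).trans hS
  have hRc : (R' : ℂ) ≠ 0 := by exact_mod_cast hR'.ne'
  have hκn : 0 < ‖κ‖ := norm_pos_iff.2 hκ0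
  have hκq : ‖κ‖ * (q + 2) < 1 :=
    (mul_le_mul_of_nonneg_right hκ.le (by linarith)).trans_lt hq
  refine (Finset.sum_le_sum fun m hm => ?_).trans (sum_cc_le hq0 hκn hκq M)
  have hm1 : (1 : ℝ) ≤ m := by exact_mod_cast (Finset.mem_Icc.1 hm).1
  have e1 : fc R' (bb S η) m * (κ / R') ^ m = -(cT S η m / m) * κ ^ m := by
    rw [fc_bb hS hη hR' hq, div_pow]
    field_simp
  rw [e1, norm_mul, norm_neg, norm_div, norm_pow, Complex.norm_natCast]
  have h1 := norm_cT_le hS hη m
  have h2 := cc_nonneg hq0 m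
  have h3 : cc q m * ‖κ‖ ^ m ≤ 1 := by
    calc cc q m * ‖κ‖ ^ m ≤ (q + 2) ^ m * ‖κ‖ ^ m :=
          mul_le_mul_of_nonneg_right (cc_le hq0 m) (by positivity)
      _ = (‖κ‖ * (q + 2)) ^ m := by rw [mul_pow, mul_comm]
      _ ≤ 1 := pow_le_one₀ (by positivity) hκq.le
  have h4 : ‖cT S η m‖ / m * ‖κ‖ ^ m ≤ cc q m / m * ‖κ‖ ^ m :=
    mul_le_mul_of_nonneg_right (div_le_div_of_nonneg_right h1 (by linarith)) (by positivity)
  have h5 : 0 ≤ ‖cT S η m‖ / m * ‖κ‖ ^ m := by positivity
  calc (m : ℝ) * (‖cT S η m‖ / m * ‖κ‖ ^ m) ^ 2 ≤ m * (cc q m / m * ‖κ‖ ^ m) ^ 2 :=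
        mul_le_mul_of_nonneg_left (pow_le_pow_left₀ h5 h4 2) (by linarith)
    _ = (cc q m * ‖κ‖ ^ m) * (cc q m / m * ‖κ‖ ^ m) := by
        field_simp
    _ ≤ 1 * (cc q m / m * ‖κ‖ ^ m) := mul_le_mul_of_nonneg_right h3 (by positivity)
    _ = _ := one_mul _

end coefs

end Pool.Agent.Run7.h406.Fb
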