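import Pool.Agent.Run7.h406.Fb.Smooth
import Pool.Agent.N686.DI.Int2
set_option autoImplicit false

/-!
Singular fibrations, and the fibrations with integral zeros.
-/

namespace Pool.Agent.Run7.h406.Fb

open Polynomial

open Pool.Agent.TH690.PF (mPhi eval_mPhi SmoothPts)

open Pool.Agent.TH826.MH (eqn qq eqn_eq pderiv_eqn eval_aeval)

/-- The partial derivative in one variable. -/
theorem pderiv_mPhi_one {K : Type*} [Field K] {r : ℕ} {σ : K →+* ℂ} {lam : K}
    {b : Fin (r + 1) → K} (x : Fin 1 → ℂ) :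
    MvPolynomial.eval₂ σ x (MvPolynomial.pderiv 0
      (mPhi (n := 1) (m := fun _ => r) lam fun _ => b)) =
    σ lam * (derivative (∏ i, (X - C (σ (b i))))).eval (x 0) := by
  have hP : mPhi (n := 1) (m := fun _ => r) lam (fun _ => b) =
      eqn (n := 1) (r := fun _ => r) lam (fun _ => b) + 1 := by
    unfold mPhi eqn Pool.Agent.TH690.PF.fl
    rw [Fintype.prod_sigma]
    ring
  have hmap : (qq b).map σ = ∏ i, (X - C (σ (b i))) := by
    unfold qq
    rw [Polynomial.map_prod]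
    refine Finset.prod_congr rfl fun i _ => ?_
    rw [Polynomial.map_sub, map_X, map_C]
  rw [hP, map_add, MvPolynomial.pderiv_one, add_zero, pderiv_eqn, MvPolynomial.eval₂_mul,
    MvPolynomial.eval₂_mul, MvPolynomial.eval₂_C, eval_aeval, MvPolynomial.eval₂_prod]
  have h2 : Finset.univ.erase (0 : Fin 1) = ∅ := by decide
  rw [h2, Finset.prod_empty, mul_one, ← hmap, derivative_map, eval_map]

/-- The fibrations with a critical value `(q + 2) ζ`, `ζ ^ (q + 2) = 1`, are singular. -/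
theorem not_smoothPts {K : Type*} [Field K] {q r : ℕ} {σ : K →+* ℂ} {lam : K}
    {b : Fin (r + 1) → K} {x ζ : ℂ}
    (hx : (derivative (∏ i, (X - C (σ (b i))))).eval x = 0) (hζ : ζ ^ (q + 2) = 1)
    (hv : σ lam * ∏ i, (x - σ (b i)) = (q + 2) * ζ) :
    ¬ SmoothPts (fun _ : Fin q => 0) σ (mPhi (n := 1) (m := fun _ => r) lam fun _ => b) := by
  intro h
  have hF : MvPolynomial.eval₂ σ (fun _ : Fin 1 => x)
      (mPhi (n := 1) (m := fun _ => r) lam fun _ => b) = (q + 2) * ζ := by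
    rw [eval_mPhi, Fintype.prod_sigma, ← hv]
    simp only [Finset.univ_unique, Finset.prod_singleton]
  have h1 := h (fun _ => x) (fun _ => ζ) ζ (ζ ^ q) (-2 * ζ) (by simp) (by
    rw [hF, Finset.sum_const, Finset.card_univ, Fintype.card_fin, nsmul_eq_mul]
    ring) (by
    have h2 : ζ ^ (q + 2) = ζ ^ q * ζ ^ 2 := pow_add _ _ _
    rw [h2] at hζ
    linear_combination (-1 : ℂ) * hζ)
  rcases h1 with h1 | ⟨k, h1⟩ | ⟨j, h1⟩
  · exact h1 (by ring)
  · apply h1
    have h2 : ∏ i ∈ Finset.univ.erase k, (fun _ : Fin q => ζ) i ^ (0 + 1) = ζ ^ (q - 1) := by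
      rw [Finset.prod_const, Finset.card_erase_of_mem (Finset.mem_univ k), Finset.card_univ,
        Fintype.card_fin, zero_add, pow_one]
    have h3 : ζ ^ q = ζ ^ (q - 1) * ζ := by
      rw [← pow_succ]
      congr 1
      have := k.pos
      omega
    simp only at h2 ⊢
    rw [h2, h3]
    push_cast
    ring
  · apply h1
    rw [Subsingleton.elim j 0, pderiv_mPhi_one, hx]
    ring

/-- The criterion for integral zeros. -/
theorem crit_of_int {q r : ℕ} (σ : ℚ →+* ℂ) (c : ℤ) (b : Fin (r + 1) → ℤ)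
    (hb : Function.Injective b)
    (h : (q : ℝ) + 2 < |(c : ℝ)| * ∏ k ∈ Finset.range (r + 1), (((k / 2 : ℕ) : ℝ) + 1 / 2)) (x : ℂ)
    (hx : (derivative (∏ i, (X - C (σ (b i : ℚ))))).eval x = 0) :
    (q : ℝ) + 2 < ‖σ (c : ℚ)‖ * ‖∏ i, (x - σ (b i : ℚ))‖ := by
  simp only [map_intCast] at hx ⊢
  have h1 := Pool.Agent.N686.DI.crit_int (Nat.succ_pos r) b hb hx
  rw [Complex.norm_intCast]
  exact h.trans_le (mul_le_mul_of_nonneg_left h1 (abs_nonneg _))

end Pool.Agent.Run7.h406.Fb
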