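import Pool.Agent.Run7.h406.Fb.Main
import Pool.Agent.TH826.UM.SmoothDC
set_option autoImplicit false

/-!
Smoothness of the fibrations `z + y_1 + ... + y_q + 1/(z ∏ y_i ^ (w_i + 1)) = λ ∏_i (x - b_i)`.
-/

namespace Pool.Agent.Run7.h406.Fb

open Polynomial

open Pool.Agent.TH690.PF (mPhi eval_mPhi SmoothPts)

open Pool.Agent.TH826.MH (eqn qq eqn_eq pderiv_eqn eval_aeval)

/-- The critical values of the Laurent polynomial. -/
theorem crit_le {q : ℕ} (w : Fin q → ℕ) {ρ : ℝ} (hρ : 0 ≤ ρ)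
    (h : (∏ i, ((w i : ℝ) + 1) ^ (w i + 1)) * ρ ^ ((∑ i, (w i + 1)) + 2) = 1) :
    (((∑ i, (w i + 1) : ℕ) : ℝ) + 2) * ρ ≤ q + 2 := by
  set w0 : ℕ := ∑ i, (w i + 1) with hw0
  set N : ℝ := (w0 : ℝ) + 2 with hN
  have hN0 : 0 < N := by positivity
  have hq0 : (0 : ℝ) < (q : ℝ) + 2 := by positivity
  have h1 : ∀ i, (N / (q + 2)) ^ (w i + 1) ≤ ((w i : ℝ) + 1) ^ (w i + 1) *
      Real.exp (N / (q + 2) - ((w i : ℝ) + 1)) := by
    intro i
    have hv : (0 : ℝ) < (w i : ℝ) + 1 := by positivity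
    have h2 := Real.add_one_le_exp (N / ((q + 2) * ((w i : ℝ) + 1)) - 1)
    rw [sub_add_cancel] at h2
    have h3 : (N / ((q + 2) * ((w i : ℝ) + 1))) ^ (w i + 1) ≤
        Real.exp (N / ((q + 2) * ((w i : ℝ) + 1)) - 1) ^ (w i + 1) :=
      pow_le_pow_left₀ (by positivity) h2 _
    rw [← Real.exp_nat_mul] at h3
    have h4 : ((w i + 1 : ℕ) : ℝ) * (N / ((q + 2) * ((w i : ℝ) + 1)) - 1) =
        N / (q + 2) - ((w i : ℝ) + 1) := by
      push_cast
      field_simp
    rw [h4] at h3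
    have h5 : (N / (q + 2)) ^ (w i + 1) = ((w i : ℝ) + 1) ^ (w i + 1) *
        (N / ((q + 2) * ((w i : ℝ) + 1))) ^ (w i + 1) := by
      rw [← mul_pow]
      congr 1
      field_simp
    rw [h5]
    exact mul_le_mul_of_nonneg_left h3 (by positivity)
  have h2 : (N / (q + 2)) ^ 2 ≤ Real.exp (2 * (N / (q + 2)) - 2) := by
    have h3 := Real.add_one_le_exp (N / ((q : ℝ) + 2) - 1)
    rw [sub_add_cancel] at h3
    have h4 : (N / ((q : ℝ) + 2)) ^ 2 ≤ Real.exp (N / ((q : ℝ) + 2) - 1) ^ 2 :=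
      pow_le_pow_left₀ (by positivity) h3 _
    rw [← Real.exp_nat_mul] at h4
    refine h4.trans (le_of_eq ?_)
    congr 1
    push_cast
    ring
  have h3 : ∏ i, (N / ((q : ℝ) + 2)) ^ (w i + 1) ≤ (∏ i, ((w i : ℝ) + 1) ^ (w i + 1)) *
      Real.exp (q * (N / (q + 2)) - w0) := by
    refine (Finset.prod_le_prod (fun i _ => by positivity) fun i _ => h1 i).trans (le_of_eq ?_)
    rw [Finset.prod_mul_distrib, ← Real.exp_sum]
    congr 2
    rw [Finset.sum_sub_distrib, Finset.sum_const, Finset.card_univ, Fintype.card_fin,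
      nsmul_eq_mul, hw0]
    push_cast
    rfl
  rw [Finset.prod_pow_eq_pow_sum, ← hw0] at h3
  have h4 : (N / ((q : ℝ) + 2)) ^ (w0 + 2) ≤ ∏ i, ((w i : ℝ) + 1) ^ (w i + 1) := by
    rw [pow_add]
    calc (N / ((q : ℝ) + 2)) ^ w0 * (N / ((q : ℝ) + 2)) ^ 2 ≤
        ((∏ i, ((w i : ℝ) + 1) ^ (w i + 1)) * Real.exp (q * (N / (q + 2)) - w0)) *
          Real.exp (2 * (N / (q + 2)) - 2) := mul_le_mul h3 h2 (by positivity) (by positivity)
      _ = (∏ i, ((w i : ℝ) + 1) ^ (w i + 1)) * (Real.exp (q * (N / (q + 2)) - w0) *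
          Real.exp (2 * (N / (q + 2)) - 2)) := by ring
      _ = ∏ i, ((w i : ℝ) + 1) ^ (w i + 1) := by
          rw [← Real.exp_add]
          have : (q : ℝ) * (N / (q + 2)) - w0 + (2 * (N / (q + 2)) - 2) = 0 := by
            rw [hN]
            field_simp
            ring
          rw [this, Real.exp_zero, mul_one]
  have h5 : (N / ((q : ℝ) + 2) * ρ) ^ (w0 + 2) ≤ 1 := by
    rw [mul_pow, ← h]
    exact mul_le_mul_of_nonneg_right h4 (by positivity)
  have h6 : N / ((q : ℝ) + 2) * ρ ≤ 1 := by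
    by_contra hcon
    push Not at hcon
    have := one_lt_pow₀ hcon (n := w0 + 2) (by omega)
    linarith
  have h7 : N * ρ = (N / ((q : ℝ) + 2) * ρ) * (q + 2) := by
    field_simp
  rw [h7]
  nlinarith

/-- smoothness, following `Pool.Agent.TH826.UM.smoothPts` -/
theorem smoothPts {K : Type*} [Field K] {n q : ℕ} (w : Fin q → ℕ) {σ : K →+* ℂ}
    {Φ : MvPolynomial (Fin n) K}
    (hcrit : ∀ x : Fin n → ℂ, MvPolynomial.eval₂ σ x Φ ≠ 0 →
      (∀ j, MvPolynomial.eval₂ σ x (MvPolynomial.pderiv j Φ) = 0) →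
      (q : ℝ) + 2 < ‖MvPolynomial.eval₂ σ x Φ‖) : SmoothPts w σ Φ := by
  intro x y z Y t hY ht heq
  set w0 : ℕ := ∑ i, (w i + 1) with hw0
  by_contra hcon
  push Not at hcon
  obtain ⟨h1, h2, h3⟩ := hcon
  set F : ℂ := MvPolynomial.eval₂ σ x Φ with hΦdef
  have hYz : Y ≠ 0 ∧ z ≠ 0 := by
    constructor
    · intro h
      rw [h] at heq
      norm_num at heq
    · intro h
      rw [h] at heq
      norm_num at heq
  obtain ⟨hY0, hz0⟩ := hYz
  have hYz2 : Y * z ^ 2 = 1 := by linear_combination z * h1 - heq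
  have hyz : ∀ i, y i = (w i + 1) * z := by
    intro i
    have h4 := h2 i
    have h5 : y i ^ (w i + 1) * ∏ k ∈ Finset.univ.erase i, y k ^ (w k + 1) = Y := by
      rw [hY]
      exact Finset.mul_prod_erase Finset.univ (fun k => y k ^ (w k + 1)) (Finset.mem_univ i)
    rw [pow_succ] at h5
    have h6 : Y * z * (y i - (w i + 1) * z) = 0 := by
      linear_combination y i * h4 - (w i + 1) * (z ^ 2 + t * z) * h5 -
        (w i + 1) * heq - (w i + 1) * hYz2
    rcases mul_eq_zero.1 h6 with h | h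
    · exact absurd h (mul_ne_zero hY0 hz0)
    · exact sub_eq_zero.1 h
  have hYq : Y = (∏ i, ((w i : ℂ) + 1) ^ (w i + 1)) * z ^ w0 := by
    rw [hY, hw0, ← Finset.prod_pow_eq_pow_sum, ← Finset.prod_mul_distrib]
    refine Finset.prod_congr rfl fun i _ => ?_
    rw [hyz, mul_pow]
  have hS : ∑ i, y i = w0 * z := by
    simp only [hyz]
    rw [← Finset.sum_mul, hw0]
    push_cast
    rfl
  have hnz : (∏ i, ((w i : ℝ) + 1) ^ (w i + 1)) * ‖z‖ ^ (w0 + 2) = 1 := by
    have h4 : (∏ i, ((w i : ℂ) + 1) ^ (w i + 1)) * z ^ (w0 + 2) = 1 := by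
      rw [pow_add, ← mul_assoc, ← hYq, hYz2]
    have h5 := congrArg norm h4
    rw [norm_mul, norm_pow, norm_one, norm_prod] at h5
    refine Eq.trans ?_ h5
    congr 1
    refine Finset.prod_congr rfl fun i _ => ?_
    rw [norm_pow]
    congr 1
    have h6 : ((w i : ℂ) + 1) = ((w i + 1 : ℕ) : ℂ) := by push_cast; ring
    rw [h6, Complex.norm_natCast]
    push_cast
    ring
  have hPhi : F = (w0 + 2) * z := by
    rw [ht, hS] at h1
    have h4 : Y * (2 * z + (w0 * z - F)) = 0 := by linear_combination h1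
    rcases mul_eq_zero.1 h4 with h | h
    · exact absurd h hY0
    · linear_combination -h
  have hq2 : (w0 + 2 : ℂ) ≠ 0 := by
    exact_mod_cast (show w0 + 2 ≠ 0 by omega)
  have hFn : ‖F‖ ≤ q + 2 := by
    have h4 : ‖(w0 + 2 : ℂ)‖ = w0 + 2 := by
      have h5 : (w0 + 2 : ℂ) = ((w0 + 2 : ℝ) : ℂ) := by push_cast; ring
      rw [h5, Complex.norm_real, Real.norm_eq_abs, abs_of_pos (by positivity)]
    rw [hPhi, norm_mul, h4]
    exact crit_le w (norm_nonneg z) hnz
  have h5 := hcrit x (by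
    rw [← hΦdef, hPhi]
    exact mul_ne_zero hq2 hz0) (fun j => by
    have h4 := h3 j
    rw [mul_eq_zero, or_iff_left hz0, mul_eq_zero, neg_eq_zero, or_iff_right hY0] at h4
    exact h4)
  rw [← hΦdef] at h5
  linarith

/-- The criterion in one variable. -/
theorem smoothPts_one {K : Type*} [Field K] {q r : ℕ} (w : Fin q → ℕ) {σ : K →+* ℂ} {lam : K}
    {b : Fin (r + 1) → K} (hl : lam ≠ 0)
    (hcrit : ∀ x : ℂ, (derivative (∏ i, (X - C (σ (b i))))).eval x = 0 →
      (q : ℝ) + 2 < ‖σ lam‖ * ‖∏ i, (x - σ (b i))‖) :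
    SmoothPts w σ (mPhi (n := 1) (m := fun _ => r) lam fun _ => b) := by
  have hΛ0 : σ lam ≠ 0 := (map_ne_zero σ).2 hl
  refine smoothPts w fun x hx hd => ?_
  have hP : mPhi (n := 1) (m := fun _ => r) lam (fun _ => b) =
      eqn (n := 1) (r := fun _ => r) lam (fun _ => b) + 1 := by
    unfold mPhi eqn Pool.Agent.TH690.PF.fl
    rw [Fintype.prod_sigma]
    ring
  have h1 := hd 0
  rw [hP, map_add, MvPolynomial.pderiv_one, add_zero, pderiv_eqn, MvPolynomial.eval₂_mul,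
    MvPolynomial.eval₂_mul, MvPolynomial.eval₂_C, eval_aeval, MvPolynomial.eval₂_prod] at h1
  have h2 : Finset.univ.erase (0 : Fin 1) = ∅ := by decide
  rw [h2, Finset.prod_empty, mul_one] at h1
  have h3 := (mul_eq_zero.1 h1).resolve_left hΛ0
  have hmap : (qq b).map σ = ∏ i, (X - C (σ (b i))) := by
    unfold qq
    rw [Polynomial.map_prod]
    refine Finset.prod_congr rfl fun i _ => ?_
    rw [Polynomial.map_sub, map_X, map_C]
  have h4 := hcrit (x 0) (by
    rw [← hmap, derivative_map, eval_map]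
    exact h3)
  refine h4.trans_le (le_of_eq ?_)
  rw [eval_mPhi, Fintype.prod_sigma, norm_mul]
  simp only [Finset.univ_unique, Finset.prod_singleton, Fin.default_eq_zero]

end Pool.Agent.Run7.h406.Fb
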