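import Pool.Agent.Run7.h406.Fb.Ser2
import Pool.Agent.Run7.h406.Fb.Lin
import Pool.Agent.N686.DI.Main
import Pool.Agent.TH690.PF.Smooth
set_option autoImplicit false

/-!
The tori in the fibrations `z + y_1 + ... + y_q + 1/(z ∏ y_i ^ (w_i + 1)) = λ ∏_i (x - b_i)`.
-/

namespace Pool.Agent.Run7.h406.Fb

open MeasureTheory Set Filter Topology Metric Polynomial

open Pool.Agent.TH826.MK

open Pool.Agent.TH826.UH (pr NZ)

open Pool.Agent.Y775.CC

open Pool.Agent.N686.DI (fc vv norm_vv nz_vv nz_X prod_sub contDiff_gc vv_add_one)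

section fn

variable {q : ℕ} (w : Fin q → ℕ) (κ : ℂ)

/-- the values of `y_j` -/
noncomputable def yy (θ : Fin (1 + q) → ℝ) (j : Fin q) : ℂ := circ 1 (θ (Fin.natAdd 1 j))

/-- the values of `1/∏ y_j ^ (w_j + 1)` -/
noncomputable def eta (θ : Fin (1 + q) → ℝ) : ℂ := (∏ j, yy θ j ^ (w j + 1))⁻¹

/-- the values of `1/v - ∑ y_j` -/
noncomputable def aA (θ : Fin (1 + q) → ℝ) : ℂ := 1 / vv κ (θ (i1 q)) - ∑ j, yy θ j

/-- the values of `z` -/
noncomputable def zz (θ : Fin (1 + q) → ℝ) : ℂ := aA κ θ * he (eta w θ / aA κ θ ^ 2)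

theorem norm_yy (θ : Fin (1 + q) → ℝ) (j : Fin q) : ‖yy θ j‖ = 1 := norm_circ zero_le_one _

theorem norm_sum_yy (θ : Fin (1 + q) → ℝ) : ‖∑ j, yy θ j‖ ≤ q := by
  refine (norm_sum_le _ _).trans (le_of_eq ?_)
  simp only [norm_yy, Finset.sum_const, Finset.card_univ, Fintype.card_fin, nsmul_eq_mul, mul_one]

theorem norm_eta (θ : Fin (1 + q) → ℝ) : ‖eta w θ‖ = 1 := by
  unfold eta
  rw [norm_inv, norm_prod]
  simp only [norm_pow, norm_yy, one_pow, Finset.prod_const_one, inv_one]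

theorem yy_ne (θ : Fin (1 + q) → ℝ) (j : Fin q) : yy θ j ≠ 0 := by
  rw [← norm_ne_zero_iff, norm_yy]
  exact one_ne_zero

theorem contDiff_yy (j : Fin q) : ContDiff ℝ 2 fun θ : Fin (1 + q) → ℝ => yy θ j :=
  (contDiff_circ 1).comp (contDiff_apply ℝ ℝ _)

theorem contDiff_eta : ContDiff ℝ 2 (eta w) := by
  unfold eta
  exact (contDiff_prod fun j _ => (contDiff_yy j).pow _).inv fun θ =>
    Finset.prod_ne_zero_iff.2 fun j _ => pow_ne_zero _ (yy_ne θ j)

theorem yy_add (θ : Fin (1 + q) → ℝ) (i : Fin (1 + q)) : yy (θ + Pi.single i 1) = yy θ := by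
  funext j
  unfold yy
  by_cases h : Fin.natAdd 1 j = i
  · rw [Pi.add_apply, h, Pi.single_eq_same, circ_add_one]
  · rw [Pi.add_apply, Pi.single_eq_of_ne h, add_zero]

theorem circ_i1_add (r : ℝ) (θ : Fin (1 + q) → ℝ) (i : Fin (1 + q)) :
    circ r ((θ + Pi.single i 1 : Fin (1 + q) → ℝ) (i1 q)) = circ r (θ (i1 q)) := by
  by_cases h : i1 q = i
  · rw [Pi.add_apply, h, Pi.single_eq_same, circ_add_one]
  · rw [Pi.add_apply, Pi.single_eq_of_ne h, add_zero]

variable {κ}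

theorem contDiff_aA (hκ : κ ≠ 0) : ContDiff ℝ 2 (aA κ : (Fin (1 + q) → ℝ) → ℂ) := by
  unfold aA
  refine ContDiff.sub ?_ (ContDiff.sum fun j _ => contDiff_yy j)
  have h1 := (nz_vv hκ).smooth.comp (contDiff_apply ℝ ℝ (i1 q))
  simp only [one_div]
  exact h1.inv fun θ => (nz_vv hκ).ne_zero _

/-- the point -/
theorem root_at (hκ : κ ≠ 0) (hq : ‖κ‖ * ((q : ℝ) + 2) < 1) (θ : Fin (1 + q) → ℝ) :
    aA κ θ ≠ 0 ∧ ‖eta w θ / aA κ θ ^ 2‖ < 1 / 4 ∧
    zz w κ θ * vv κ (θ (i1 q)) = Complex.exp (bb (∑ j, yy θ j) (eta w θ) (vv κ (θ (i1 q)))) ∧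
    zz w κ θ ^ 2 - aA κ θ * zz w κ θ + eta w θ = 0 := by
  obtain ⟨h1, h2, h3, h4⟩ := exists_root (norm_sum_yy θ) (norm_eta w θ)
    ((nz_vv hκ).ne_zero (θ (i1 q))) (by rw [norm_vv]; exact hq)
  refine ⟨fun h0 => ?_, h1, h3, h4⟩
  unfold aA at h0
  rw [h0, zero_mul, norm_zero] at h2
  linarith

theorem good_zz (hκ : κ ≠ 0) (hq : ‖κ‖ * ((q : ℝ) + 2) < 1) : Good (zz w κ) := by
  refine ⟨?_, fun θ => ?_⟩
  · rw [contDiff_iff_contDiffAt]
    intro θ
    obtain ⟨h1, h2, -, -⟩ := root_at w hκ hq θ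
    have hA := (contDiff_aA (q := q) hκ).contDiffAt (x := θ)
    have hE := (contDiff_eta w).contDiffAt (x := θ)
    have h3 : ContDiffAt ℝ 2 (fun θ => eta w θ / aA κ θ ^ 2) θ := by
      simp only [div_eq_mul_inv]
      exact hE.mul ((hA.pow 2).inv (pow_ne_zero 2 h1))
    have h5 : ContDiffAt ℝ 2 he (eta w θ / aA κ θ ^ 2) :=
      (contDiffAt_he h2 (n := 2)).restrict_scalars ℝ
    have h4 : ContDiffAt ℝ 2 (fun θ => he (eta w θ / aA κ θ ^ 2)) θ :=
      ContDiffAt.comp (g := he) (f := fun θ => eta w θ / aA κ θ ^ 2) θ h5 h3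
    exact hA.mul h4
  · obtain ⟨h1, h2, -, -⟩ := root_at w hκ hq θ
    exact mul_ne_zero h1 (he_ne_zero h2)

theorem zz_add (θ : Fin (1 + q) → ℝ) (i : Fin (1 + q)) :
    zz w κ (θ + Pi.single i 1) = zz w κ θ := by
  unfold zz eta aA
  rw [yy_add]
  unfold vv
  rw [circ_i1_add]

theorem yy_th (x : Fin (1 + q) → ℝ) (s : ℝ) : yy (th x s) = yy (th x 0) := by
  funext j
  unfold yy
  rw [th_eq x s, Pi.add_apply, Pi.smul_apply, Pi.single_eq_of_ne (i1_ne j).symm, smul_zero,
    add_zero]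

end fn

section integrals

variable {q : ℕ} {z : (Fin (1 + q) → ℝ) → ℂ} (hz : Good z) {f g : ℝ → ℂ}

include hz

theorem continuous_pr_th (hf : NZ f) : Continuous fun x => pr (fun s => z (th x s)) f := by
  have hF := continuous_integrand (good_ent hz hf)
  have hpi : ((2 * Real.pi) ^ q : ℝ) ≠ 0 := pow_ne_zero _ (by positivity)
  have e : (fun x => pr (fun s => z (th x s)) f) = fun x => ((2 * Real.pi) ^ q)⁻¹ *
      ∫ s in (0 : ℝ)..1, integrand (ent z f) ((i1 q).succ.insertNth s x) := by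
    funext x
    rw [eq_inv_mul_iff_mul_eq₀ hpi]
    unfold pr
    rw [← intervalIntegral.integral_const_mul]
    refine intervalIntegral.integral_congr fun s _ => ?_
    simp only
    rw [integrand_ent z hf.smooth, Fin.insertNth_apply_same]
    have e : tl (1 + q) ((i1 q).succ.insertNth s x : Fin (1 + q + 1) → ℝ) = th x s := rfl
    rw [e, lw_th hz]
  rw [e]
  refine continuous_const.mul ?_
  refine intervalIntegral.continuous_parametric_intervalIntegral_of_continuous' (μ := volume)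
    (f := fun (x : Fin (1 + q) → ℝ) (s : ℝ) => integrand (ent z f) ((i1 q).succ.insertNth s x))
    ?_ 0 1
  refine hF.comp ?_
  refine continuous_pi fun j => ?_
  rcases Fin.eq_self_or_eq_succAbove (i1 q).succ j with h | ⟨k, h⟩
  · subst h
    simpa using continuous_snd
  · subst h
    simp only [Fin.insertNth_apply_succAbove]
    exact (continuous_apply k).comp continuous_fst

theorem integrable_pr_th (hf : NZ f) :
    IntegrableOn (fun x => pr (fun s => z (th x s)) f) (Icc (0 : Fin (1 + q) → ℝ) 1) :=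
  (continuous_pr_th hz hf).continuousOn.integrableOn_compact isCompact_Icc

theorem pairing_ent_div (hf : NZ f) (hg : NZ g) :
    pairing (ent z fun s => f s / g s) = pairing (ent z f) - pairing (ent z g) := by
  rw [pairing_ent hz (hf.div hg), pairing_ent hz hf, pairing_ent hz hg, ← mul_sub,
    ← integral_sub (integrable_pr_th hz hf) (integrable_pr_th hz hg)]
  congr 1
  refine integral_congr_ae (Filter.Eventually.of_forall fun x => ?_)
  exact Pool.Agent.TH826.UH.pr_div (nz_th hz x) hf hg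

theorem pairing_ent_prod {ι : Type*} (t : Finset ι) {F : ι → ℝ → ℂ}
    (hF : ∀ j, NZ (F j)) : pairing (ent z fun s => ∏ j ∈ t, F j s) =
      ∑ j ∈ t, pairing (ent z (F j)) := by
  classical
  rw [pairing_ent hz (NZ.prod t hF)]
  simp only [fun j => pairing_ent hz (hF j)]
  rw [← Finset.mul_sum, ← integral_finsetSum _ fun j _ => integrable_pr_th hz (hF j)]
  congr 1
  refine integral_congr_ae (Filter.Eventually.of_forall fun x => ?_)
  exact Pool.Agent.TH826.UH.pr_prod t (nz_th hz x) hF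

end integrals

section matrix

variable {G : ℂ[X]} {n q : ℕ} {V : Set ℂ} {φ : Fin n → ℂ → ℂ} (H : Branches G V φ) {R : ℝ}
  (hR : 0 < R) (hV : ∀ z : ℂ, ‖z‖ ≤ R → z ∈ V) (w : Fin q → ℕ) {κ : ℂ} (hκ0 : κ ≠ 0)
  (hq : ‖κ‖ * ((q : ℝ) + 2) < 1)

/-- the matrix of the regulators -/
noncomputable def NN (φ : Fin n → ℂ → ℂ) (R : ℝ) (w : Fin q → ℕ) (κ : ℂ) (k i : Fin n) : ℝ :=
  pairing (ent (zz w κ) fun s => φ k (circ R s) - φ i 0)

include H hR hV hκ0 hq

theorem sum_NN (i : Fin n) : ∑ k, NN φ R w κ k i =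
    pairing (ent (zz w κ) fun s => (-1) ^ n * -circ R s) := by
  have h0V : (0 : ℂ) ∈ V := hV 0 (by rw [norm_zero]; exact hR.le)
  unfold NN
  rw [← pairing_ent_prod (good_zz w hκ0 hq) Finset.univ fun k => nz_X H hR hV k i]
  congr 2
  funext s
  exact prod_sub H h0V i (hV _ (norm_circ hR.le s).le)

theorem NN_pos (c : Fin n → ℝ) (hc : ∑ i, c i = 0) (hc0 : c ≠ 0) :
    0 < ∑ k, ∑ i, c k * c i * NN φ R w κ k i := by
  have hz := good_zz w hκ0 hq
  have hκn : 0 < ‖κ‖ := norm_pos_iff.2 hκ0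
  have hq0 : (0 : ℝ) ≤ q := Nat.cast_nonneg q
  have hκ1 : ‖κ‖ < 1 / ((q : ℝ) + 2) := by
    rw [lt_div_iff₀ (by linarith)]
    exact hq
  set R' : ℝ := (‖κ‖ + 1 / ((q : ℝ) + 2)) / 2 with hR'
  have hR'1 : ‖κ‖ < R' := by
    rw [hR']
    linarith
  have hR'2 : R' < 1 / ((q : ℝ) + 2) := by
    rw [hR']
    linarith
  have hR'0 : 0 < R' := by linarith
  have hR'q : R' * ((q : ℝ) + 2) < 1 := by
    rwa [lt_div_iff₀ (by linarith)] at hR'2
  have hlog : 0 < -Real.log ‖κ‖ := by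
    have h1 : ‖κ‖ < 1 := by
      have : 1 / ((q : ℝ) + 2) < 1 := by
        rw [div_lt_one (by linarith)]
        linarith
      linarith
    have := Real.log_neg hκn h1
    linarith
  have hc2 : 0 < ∑ i, c i ^ 2 := by
    obtain ⟨i, hi⟩ := Function.ne_iff.1 hc0
    refine Finset.sum_pos' (fun i _ => sq_nonneg _) ⟨i, Finset.mem_univ i, ?_⟩
    have hi' : c i ≠ 0 := hi
    positivity
  set A0 : ℝ := Real.pi * -Real.log ‖κ‖ * ∑ i, c i ^ 2 with hA0
  have hA0p : 0 < A0 := by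
    have := Real.pi_pos
    positivity
  -- the loops
  have hloop : ∀ x : Fin (1 + q) → ℝ, A0 ≤ ∑ k, ∑ i, c k * c i *
      pr (fun s => zz w κ (th x s)) (fun s => φ k (circ R s) - φ i 0) := by
    intro x
    have hS := norm_sum_yy (th x 0)
    have hη := norm_eta w (th x 0)
    refine loop_form H hR hR'0 hV (V' := ball 0 (1 / ((q : ℝ) + 2))) (fun z hz => ?_) isOpen_ball
      (differentiableOn_bb hS hη) (bb_zero) hκ0 hR'1 (nz_th hz x) (fun s => ?_)
      (sum_fc_bb_le hS hη hR'0 hR'q hκ0 hR'1) c hc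
    · rw [mem_ball_zero_iff]
      linarith
    · have h1 := (root_at w hκ0 hq (th x s)).2.2.1
      rw [th_i1] at h1
      rw [h1, yy_th x s]
      unfold eta
      rw [yy_th x s]
  have hint : ∀ k i, IntegrableOn (fun x => pr (fun s => zz w κ (th x s))
      (fun s => φ k (circ R s) - φ i 0)) (Icc (0 : Fin (1 + q) → ℝ) 1) := fun k i =>
    integrable_pr_th hz (nz_X H hR hV k i)
  have hsum : ∑ k, ∑ i, c k * c i * NN φ R w κ k i = (2 * Real.pi) ^ q *
      ∫ x in Icc (0 : Fin (1 + q) → ℝ) 1, ∑ k, ∑ i, c k * c i *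
        pr (fun s => zz w κ (th x s)) (fun s => φ k (circ R s) - φ i 0) := by
    unfold NN
    simp only [fun k i => pairing_ent hz (nz_X H hR hV k i)]
    rw [integral_finsetSum _ fun k _ => integrable_finsetSum _ fun i _ =>
      (hint k i).const_mul _, Finset.mul_sum]
    refine Finset.sum_congr rfl fun k _ => ?_
    rw [integral_finsetSum _ fun i _ => (hint k i).const_mul _, Finset.mul_sum]
    refine Finset.sum_congr rfl fun i _ => ?_
    rw [integral_const_mul]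
    ring
  have hvol : (volume.restrict (Icc (0 : Fin (1 + q) → ℝ) 1)).real univ = 1 := by
    rw [measureReal_restrict_apply_univ, measureReal_def, Real.volume_Icc_pi]
    simp
  have hle : A0 ≤ ∫ x in Icc (0 : Fin (1 + q) → ℝ) 1, ∑ k, ∑ i, c k * c i *
        pr (fun s => zz w κ (th x s)) (fun s => φ k (circ R s) - φ i 0) := by
    have h1 : ∫ _x in Icc (0 : Fin (1 + q) → ℝ) 1, A0 = A0 := by
      rw [integral_const, hvol, one_smul]
    rw [← h1]
    have hc1 : IntegrableOn (fun _ : Fin (1 + q) → ℝ => A0) (Icc (0 : Fin (1 + q) → ℝ) 1) :=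
      continuous_const.continuousOn.integrableOn_compact isCompact_Icc
    refine integral_mono hc1 ?_ hloop
    exact integrable_finsetSum _ fun k _ => integrable_finsetSum _ fun i _ =>
      (hint k i).const_mul _
  rw [hsum]
  have hpi := Real.pi_pos
  have : 0 < ∫ x in Icc (0 : Fin (1 + q) → ℝ) 1, ∑ k, ∑ i, c k * c i *
        pr (fun s => zz w κ (th x s)) (fun s => φ k (circ R s) - φ i 0) := lt_of_lt_of_le hA0p hle
  positivity

end matrix

end Pool.Agent.Run7.h406.Fb
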