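import Pool.Agent.N686.DI.Core
set_option autoImplicit false

/-!
The outer root of `z + S + η/z = 1/v` for small `v`.
-/

namespace Pool.Agent.Run7.h406.Fb

open MeasureTheory Set Filter Topology Metric

open Pool.Agent.TH826.MK (circ norm_circ contDiff_circ circ_add_one)

set_option maxHeartbeats 400000

section root

/-- `√(1 - 4 e)` -/
noncomputable def se (e : ℂ) : ℂ := Complex.exp (Complex.log (1 - 4 * e) / 2)

/-- `(1 + √(1 - 4 e))/2` -/
noncomputable def he (e : ℂ) : ℂ := (1 + se e) / 2

variable {e : ℂ}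

theorem slit_e (h : ‖e‖ < 1 / 4) : 1 - 4 * e ∈ Complex.slitPlane := by
  rw [sub_eq_add_neg]
  refine Complex.mem_slitPlane_of_norm_lt_one ?_
  rw [norm_neg, norm_mul, Complex.norm_ofNat]
  linarith

theorem se_sq (h : ‖e‖ < 1 / 4) : se e ^ 2 = 1 - 4 * e := by
  unfold se
  rw [← Complex.exp_nat_mul]
  push_cast
  rw [mul_div_cancel₀ _ (two_ne_zero), Complex.exp_log (Complex.slitPlane_ne_zero (slit_e h))]

theorem he_eq (h : ‖e‖ < 1 / 4) : he e ^ 2 - he e + e = 0 := by
  unfold he
  linear_combination (1 / 4) * se_sq h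

theorem se_re_pos (h : ‖e‖ < 1 / 4) : 0 < (se e).re := by
  unfold se
  rw [Complex.exp_re]
  refine mul_pos (Real.exp_pos _) ?_
  have h1 : (Complex.log (1 - 4 * e) / 2).im = (1 - 4 * e).arg / 2 := by
    rw [show (Complex.log (1 - 4 * e) / 2) = Complex.log (1 - 4 * e) * ((1 / 2 : ℝ) : ℂ) by
      push_cast; ring, Complex.im_mul_ofReal, Complex.log_im]
    ring
  rw [h1]
  have h2 := Complex.neg_pi_lt_arg (1 - 4 * e)
  have h3 := Complex.arg_le_pi (1 - 4 * e)
  have h4 : (1 - 4 * e).arg ≠ Real.pi := (Complex.mem_slitPlane_iff_arg.1 (slit_e h)).1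
  refine Real.cos_pos_of_mem_Ioo ⟨by linarith, ?_⟩
  have h5 := lt_of_le_of_ne h3 h4
  linarith

theorem he_re (h : ‖e‖ < 1 / 4) : 1 / 2 < (he e).re := by
  have h1 := se_re_pos h
  unfold he
  rw [show (1 + se e) / 2 = (1 + se e) * ((1 / 2 : ℝ) : ℂ) by push_cast; ring,
    Complex.re_mul_ofReal, Complex.add_re, Complex.one_re]
  linarith

theorem he_ne_zero (h : ‖e‖ < 1 / 4) : he e ≠ 0 := by
  intro h0
  have := he_re h
  rw [h0, Complex.zero_re] at this
  linarith

theorem norm_one_sub_he (h : ‖e‖ < 1 / 4) : ‖1 - he e‖ < ‖he e‖ := by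
  have h1 := he_re h
  have h2 : ‖1 - he e‖ ^ 2 < ‖he e‖ ^ 2 := by
    rw [← Complex.normSq_eq_norm_sq, ← Complex.normSq_eq_norm_sq, Complex.normSq_apply,
      Complex.normSq_apply, Complex.sub_re, Complex.sub_im, Complex.one_re, Complex.one_im]
    nlinarith
  exact lt_of_pow_lt_pow_left₀ 2 (norm_nonneg _) h2

theorem contDiffAt_he (h : ‖e‖ < 1 / 4) {n : WithTop ℕ∞} : ContDiffAt ℂ n he e := by
  unfold he se
  have h1 : ContDiffAt ℂ n (fun e : ℂ => 1 - 4 * e) e :=
    contDiffAt_const.sub (contDiffAt_const.mul contDiffAt_id)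
  exact (contDiffAt_const.add
    (((Complex.contDiffAt_log (slit_e h)).comp e h1).div_const 2).cexp).div_const 2

end root

section const

/-- A continuous function with constant exponential is constant. -/
theorem eq_of_exp_eq {f : ℝ → ℂ} (hf : Continuous f) {c : ℂ} (h : ∀ t, Complex.exp (f t) = c)
    (t : ℝ) : f t = f 0 := by
  have h1 : Complex.exp (f t) = Complex.exp (f 0) := by rw [h, h]
  obtain ⟨n, hn⟩ := Complex.exp_eq_exp_iff_exists_int.1 h1
  by_contra hne
  have hn0 : n ≠ 0 := by
    rintro rfl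
    apply hne
    rw [hn]
    simp
  have him : (f t).im = (f 0).im + n * (2 * Real.pi) := by
    have h2 := congrArg Complex.im hn
    simpa using h2
  have hc : ContinuousOn (fun t => (f t).im) (uIcc 0 t) :=
    (Complex.continuous_im.comp hf).continuousOn
  have hiv := intermediate_value_uIcc hc
  -- an intermediate value
  have hpi := Real.pi_pos
  have hmem : (f 0).im + (if 0 < n then 1 else -1) * Real.pi ∈ uIcc (f 0).im (f t).im := by
    rw [him]
    by_cases hp : 0 < n
    · rw [if_pos hp, mem_uIcc]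
      left
      have h3 : (1 : ℝ) ≤ n := by exact_mod_cast hp
      constructor
      · linarith
      · nlinarith
    · rw [if_neg hp, mem_uIcc]
      right
      have h3 : (n : ℝ) ≤ -1 := by
        have : n ≤ -1 := by omega
        exact_mod_cast this
      constructor
      · nlinarith
      · linarith
  obtain ⟨s, -, hs⟩ := hiv hmem
  have h2 : Complex.exp (f s) = Complex.exp (f 0) := by rw [h, h]
  obtain ⟨m, hm⟩ := Complex.exp_eq_exp_iff_exists_int.1 h2
  have him2 : (f s).im = (f 0).im + m * (2 * Real.pi) := by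
    have h3 := congrArg Complex.im hm
    simpa using h3
  simp only at hs
  rw [him2] at hs
  have h3 : (m : ℝ) * 2 = if 0 < n then 1 else -1 := by
    have h4 : ((m : ℝ) * 2 - if 0 < n then 1 else -1) * Real.pi = 0 := by linarith
    have h5 := (mul_eq_zero.1 h4).resolve_right hpi.ne'
    linarith
  by_cases hp : 0 < n
  · rw [if_pos hp] at h3
    have : m * 2 = 1 := by exact_mod_cast h3
    omega
  · rw [if_neg hp] at h3
    have : m * 2 = -1 := by exact_mod_cast h3
    omega

end const

end Pool.Agent.Run7.h406.Fb
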